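import Pool.Agent.Run7.h310.SP.Stm
import Pool.Agent.H370R2.PC2
import Pool.Agent.H370R2.DirGood

set_option autoImplicit false

/-! # Sums over the zeros of zeta and sums over separated points -/

namespace Run7.h751.ZM

open Finset Filter MeasureTheory Topology Complex

/-- the zeros of zeta with ordinate in `(T, 2T]` -/
noncomputable def Zs (T : ℝ) : Finset ℂ := H370.Zf riemannZeta T (2 * T)

/-- the multiplicity of a zero -/
noncomputable def mu (s : ℂ) : ℝ := (H370.mult riemannZeta s : ℝ)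

lemma mu_nn (s : ℂ) : 0 ≤ mu s := Nat.cast_nonneg _

lemma mem_Zs {T : ℝ} (hT : 1 ≤ T) {s : ℂ} : s ∈ Zs T ↔ s ∈ H370.zset riemannZeta T (2 * T) :=
  H370.mem_Zf H370.good_zeta hT

lemma Zs_im {T : ℝ} (hT : 1 ≤ T) {s : ℂ} (hs : s ∈ Zs T) : T < s.im ∧ s.im ≤ 2 * T :=
  ⟨((mem_Zs hT).1 hs).2.2.1, ((mem_Zs hT).1 hs).2.2.2.1⟩

/-- a sum over the zeros is bounded by sums over two separated sets of ordinates -/
theorem cell : ∃ C : ℝ, 0 < C ∧ ∀ T : ℝ, 4 ≤ T → ∀ f : ℝ → ℝ, (∀ x, 0 ≤ f x) → ∃ S1 S2 : Finset ℝ,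
    Run7.h310.SP.Sep 1 (3 * T) S1 ∧ Run7.h310.SP.Sep 1 (3 * T) S2 ∧
    ∑ s ∈ Zs T, mu s * f s.im ≤ C * Real.log T * (∑ x ∈ S1, f x + ∑ x ∈ S2, f x) := by
  classical
  obtain ⟨C, hC, h⟩ := H370.local_sum H370.good_zeta
  refine ⟨C, hC, fun T hT f hf => ?_⟩
  have hT1 : 1 ≤ T := by linarith
  obtain ⟨I, hI⟩ : ∃ I : Finset ℤ, I = (Zs T).image (fun s => ⌊s.im - 0⌋) := ⟨_, rfl⟩
  have hmax : ∀ k : ℤ, ∃ s : ℂ, k ∈ I → s ∈ Zs T ∧ ⌊s.im⌋ = k ∧ ∀ s' ∈ Zs T, ⌊s'.im⌋ = k → f s'.im ≤ f s.im := by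
    intro k
    by_cases hk : k ∈ I
    · have hne : ((Zs T).filter (fun s => ⌊s.im⌋ = k)).Nonempty := by
        rw [hI, mem_image] at hk
        obtain ⟨s, hs, hs2⟩ := hk
        rw [sub_zero] at hs2
        exact ⟨s, mem_filter.2 ⟨hs, hs2⟩⟩
      obtain ⟨s, hs, hs2⟩ := exists_max_image _ (fun s : ℂ => f s.im) hne
      rw [mem_filter] at hs
      exact ⟨s, fun _ => ⟨hs.1, hs.2, fun s' h1 h2 => hs2 s' (mem_filter.2 ⟨h1, h2⟩)⟩⟩
    · exact ⟨0, fun h' => absurd h' hk⟩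
  choose g hg using hmax
  have hgi : ∀ k ∈ I, ∀ k' ∈ I, (g k).im = (g k').im → k = k' := by
    intro k hk k' hk' he
    rw [← (hg k hk).2.1, ← (hg k' hk').2.1, he]
  have hsep : ∀ (P : ℤ → Prop) [DecidablePred P], (∀ k k', P k → P k' → k ≠ k' → 2 ≤ |k - k'|) →
      Run7.h310.SP.Sep 1 (3 * T) ((I.filter P).image (fun k => (g k).im)) := by
    intro P _ hP
    refine ⟨fun x hx => ?_, fun x hx => ?_, fun x hx x' hx' hne => ?_⟩
    · obtain ⟨k, hk, rfl⟩ := mem_image.1 hx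
      have := Zs_im hT1 (hg k (mem_filter.1 hk).1).1
      linarith [this.1]
    · obtain ⟨k, hk, rfl⟩ := mem_image.1 hx
      have := Zs_im hT1 (hg k (mem_filter.1 hk).1).1
      linarith [this.2]
    · obtain ⟨k, hk, rfl⟩ := mem_image.1 hx
      obtain ⟨k', hk', rfl⟩ := mem_image.1 hx'
      rw [mem_filter] at hk hk'
      have hkk : k ≠ k' := fun h => hne (by rw [h])
      have h1 := hP k k' hk.2 hk'.2 hkk
      have e1 := (hg k hk.1).2.1
      have e2 := (hg k' hk'.1).2.1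
      have a1 := Int.floor_le (g k).im
      have a2 := Int.lt_floor_add_one (g k).im
      have a3 := Int.floor_le (g k').im
      have a4 := Int.lt_floor_add_one (g k').im
      rw [e1] at a1 a2
      rw [e2] at a3 a4
      rcases le_abs.1 h1 with h2 | h2
      · have h3 : (2:ℝ) ≤ k - k' := by exact_mod_cast h2
        rw [le_abs]; left; linarith
      · have h3 : (2:ℝ) ≤ -((k:ℝ) - k') := by exact_mod_cast h2
        rw [le_abs]; right; linarith
  refine ⟨(I.filter (fun k => Even k)).image (fun k => (g k).im), (I.filter (fun k => ¬ Even k)).image (fun k => (g k).im),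
    hsep _ ?_, hsep _ ?_, ?_⟩
  · intro k k' hk hk' hne
    obtain ⟨a, ha⟩ := hk
    obtain ⟨b, hb⟩ := hk'
    have : k - k' ≠ 0 := sub_ne_zero.2 hne
    rw [le_abs]
    omega
  · intro k k' hk hk' hne
    rw [Int.not_even_iff_odd] at hk hk'
    obtain ⟨a, ha⟩ := hk
    obtain ⟨b, hb⟩ := hk'
    have : k - k' ≠ 0 := sub_ne_zero.2 hne
    rw [le_abs]
    omega
  · have h1 := h T hT T (2 * T) le_rfl le_rfl 0 (fun k => if k ∈ I then f (g k).im else 0)
      (fun k => by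
        show 0 ≤ (if k ∈ I then f (g k).im else 0)
        split_ifs
        · exact hf _
        · exact le_rfl) (fun s => f s.im) (fun s hs => by
        have hk : ⌊s.im - 0⌋ ∈ I := by rw [hI]; exact mem_image_of_mem _ hs
        show f s.im ≤ (if ⌊s.im - 0⌋ ∈ I then f (g ⌊s.im - 0⌋).im else 0)
        rw [if_pos hk]
        exact (hg _ hk).2.2 s hs (by rw [sub_zero]))
    refine h1.trans (le_of_eq ?_)
    have e1 : (H370.Zf riemannZeta T (2 * T)).image (fun s => ⌊s.im - 0⌋) = I := by rw [hI]; rfl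
    have e2 : ∀ (P : ℤ → Prop) [DecidablePred P], ∑ x ∈ (I.filter P).image (fun k => (g k).im), f x =
        ∑ k ∈ I.filter P, f (g k).im := fun P _ =>
      sum_image fun k hk k' hk' he => hgi k (mem_filter.1 hk).1 k' (mem_filter.1 hk').1 he
    rw [e1, e2, e2, ← sum_filter_add_sum_filter_not I (fun k => Even k)]
    congr 2
    · exact sum_congr rfl fun k hk => if_pos (mem_filter.1 hk).1
    · exact sum_congr rfl fun k hk => if_pos (mem_filter.1 hk).1

end Run7.h751.ZM
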