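import Pool.Agent.N748.MG.Stm2
import Pool.Agent.R313.SH.Curt

set_option autoImplicit false

/-! # Laws of weighted finite families from their Laplace transforms -/

namespace Run7.h751.ZM

open Finset Filter MeasureTheory Topology ProbabilityTheory
open Pool.Agent.N748.MG

/-- the weighted empirical measure -/
noncomputable def emp {ι : Type*} (F : Finset ι) (w X : ι → ℝ) : Measure ℝ :=
  ∑ s ∈ F, ENNReal.ofReal (w s / ∑ r ∈ F, w r) • Measure.dirac (X s)

lemma emp_int {ι : Type*} (F : Finset ι) (w X : ι → ℝ) (hw : ∀ s, 0 ≤ w s) {f : ℝ → ℝ} (hf : Continuous f) :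
    Integrable f (emp F w X) ∧ ∫ x, f x ∂(emp F w X) = (∑ s ∈ F, w s * f (X s)) / ∑ r ∈ F, w r := by
  have hi : ∀ s ∈ F, Integrable f (ENNReal.ofReal (w s / ∑ r ∈ F, w r) • Measure.dirac (X s)) := fun s _ =>
    (integrable_dirac (by simp)).smul_measure ENNReal.ofReal_ne_top
  have hW : 0 ≤ ∑ r ∈ F, w r := sum_nonneg fun s _ => hw s
  refine ⟨?_, ?_⟩
  · unfold emp
    exact integrable_finset_sum_measure.2 hi
  · unfold emp
    rw [integral_finset_sum_measure hi, sum_div]
    refine sum_congr rfl fun s _ => ?_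
    rw [integral_smul_measure, integral_dirac, ENNReal.toReal_ofReal (div_nonneg (hw s) hW), smul_eq_mul]
    ring

lemma emp_set {ι : Type*} (F : Finset ι) (w X : ι → ℝ) (hw : ∀ s, 0 ≤ w s) (x : ℝ) :
    (emp F w X (Set.Iic x)).toReal = (∑ s ∈ F.filter (fun s => X s ≤ x), w s) / ∑ r ∈ F, w r := by
  have hW : 0 ≤ ∑ r ∈ F, w r := sum_nonneg fun s _ => hw s
  unfold emp
  rw [Measure.finset_sum_apply, ENNReal.toReal_sum]
  · rw [sum_filter, sum_div]
    refine sum_congr rfl fun s _ => ?_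
    rw [Measure.smul_apply, Measure.dirac_apply' _ measurableSet_Iic, smul_eq_mul]
    by_cases h : X s ≤ x
    · rw [if_pos h, Set.indicator_of_mem (show X s ∈ Set.Iic x from h)]
      simp only [Pi.one_apply, mul_one]
      exact ENNReal.toReal_ofReal (div_nonneg (hw s) hW)
    · rw [if_neg h, Set.indicator_of_notMem (show X s ∉ Set.Iic x from h)]
      simp
  · intro s _
    rw [Measure.smul_apply, smul_eq_mul]
    exact ENNReal.mul_ne_top ENNReal.ofReal_ne_top (measure_ne_top _ _)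

lemma emp_prob {ι : Type*} (F : Finset ι) (w X : ι → ℝ) (hw : ∀ s, 0 ≤ w s) (hW : 0 < ∑ r ∈ F, w r) :
    IsProbabilityMeasure (emp F w X) := by
  refine ⟨?_⟩
  unfold emp
  rw [Measure.finset_sum_apply]
  simp only [Measure.smul_apply, measure_univ, smul_eq_mul, mul_one]
  rw [← ENNReal.ofReal_sum_of_nonneg fun s _ => div_nonneg (hw s) hW.le, ← sum_div, div_self hW.ne', ENNReal.ofReal_one]

/-- the normal law -/
theorem disc_law {ι : Type*} (F : ℝ → Finset ι) (w X : ℝ → ι → ℝ) (hw : ∀ T s, 0 ≤ w T s)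
    (hW : ∀ᶠ T in atTop, 0 < ∑ s ∈ F T, w T s)
    (hL : ∀ u : ℝ, Tendsto (fun T => (∑ s ∈ F T, w T s * Real.exp (u * X T s)) / ∑ s ∈ F T, w T s) atTop
      (𝓝 (Real.exp (u ^ 2 / 2)))) (x : ℝ) :
    Tendsto (fun T => (∑ s ∈ (F T).filter (fun s => X T s ≤ x), w T s) / ∑ s ∈ F T, w T s) atTop (𝓝 (Phi x)) := by
  classical
  have hex : ∀ T, ∃ ν : ProbabilityMeasure ℝ, 0 < ∑ s ∈ F T, w T s → (ν : Measure ℝ) = emp (F T) (w T) (X T) := by
    intro T
    by_cases h : 0 < ∑ s ∈ F T, w T s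
    · exact ⟨⟨emp (F T) (w T) (X T), emp_prob _ _ _ (hw T) h⟩, fun _ => rfl⟩
    · exact ⟨⟨Measure.dirac 0, inferInstance⟩, fun h' => absurd h' h⟩
  choose μ hμ using hex
  have hc := Pool.Agent.R313.SH.curt (μ := μ) (m := 0) (v := 1) (r := 1) one_pos (fun u _ => by
    have hf : Continuous fun y : ℝ => Real.exp (u * y) := by fun_prop
    refine ⟨?_, ?_⟩
    · filter_upwards [hW] with T hT
      rw [hμ T hT]
      exact (emp_int _ _ _ (hw T) hf).1
    · have e1 : Real.exp (u * 0 + u ^ 2 * 1 / 2) = Real.exp (u ^ 2 / 2) := by congr 1; ring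
      rw [e1]
      refine (hL u).congr' ?_
      filter_upwards [hW] with T hT
      rw [hμ T hT]
      exact (emp_int _ _ _ (hw T) hf).2.symm)
  have ha := hc.2
  obtain ⟨ν, hν⟩ : ∃ ν : ProbabilityMeasure ℝ, ν = ⟨gaussianReal 0 (1:ℝ).toNNReal, inferInstance⟩ := ⟨_, rfl⟩
  have hνm : (ν : Measure ℝ) = gaussianReal 0 1 := by
    rw [hν]
    show gaussianReal 0 (1:ℝ).toNNReal = _
    rw [Real.toNNReal_one]
  rw [← hν] at ha
  have hfr : (ν : Measure ℝ) (frontier (Set.Iic x)) = 0 := by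
    rw [hνm, frontier_Iic]
    have := nullSingletonClass_gaussianReal (μ := 0) (v := 1) one_ne_zero
    exact measure_singleton _
  have h6 := ProbabilityMeasure.tendsto_measure_of_null_frontier_of_tendsto' ha hfr
  have h7 := (ENNReal.tendsto_toReal (measure_ne_top _ _)).comp h6
  have e2 : ((ν : Measure ℝ) (Set.Iic x)).toReal = Phi x := by
    rw [hνm]
    rfl
  rw [e2] at h7
  refine h7.congr' ?_
  filter_upwards [hW] with T hT
  show (((μ T : ProbabilityMeasure ℝ) : Measure ℝ) (Set.Iic x)).toReal = _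
  rw [hμ T hT, emp_set _ _ _ (hw T)]

end Run7.h751.ZM
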