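import Pool.Agent.Run7.h751.ZM.Z8
import Pool.Agent.Run7.h751.ZM.Z10

set_option autoImplicit false

/-! # The limit theorems -/

namespace Run7.h751.ZM

open Finset Filter MeasureTheory Topology
open Pool.Agent.N748.MG

lemma Ad_app {P : ℝ → ℝ → Prop} (h : Ev P) {d : ℝ → ℝ} (hd : Ad d) : ∀ᶠ T in atTop, P T (d T) := by
  obtain ⟨lam, δ0, h1, h2, h3, h4⟩ := h
  filter_upwards [h4, hd.pos, hd.t0.eventually_le_const h2, hd.tL.eventually_ge_atTop lam] with T g1 g2 g3 g4
  refine g1 (d T) g2 g3 ?_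
  have hl : 1 ≤ Real.log (1 / d T) := log_inv_ge g2 (g3.trans h3)
  have : 0 < Real.log (1 / d T) ^ 2 := by positivity
  rwa [le_div_iff₀ this] at g4

/-- the size of the sums -/
noncomputable def XX (T : ℝ) : ℝ := T * Real.log T

lemma XX_pos : ∀ᶠ T : ℝ in atTop, 0 < XX T := by
  filter_upwards [eventually_gt_atTop 1] with T hT
  exact mul_pos (by linarith) (Real.log_pos hT)

lemma lim_of {f : ℝ → ℝ} {a : ℝ} (h : ∀ ε : ℝ, 0 < ε → ∀ᶠ T in atTop, |f T - a * (XX T / (2 * Real.pi))| ≤ ε * XX T) :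
    Tendsto (fun T => f T / XX T) atTop (𝓝 (a / (2 * Real.pi))) := by
  rw [Metric.tendsto_nhds]
  intro ε hε
  filter_upwards [h (ε / 2) (by positivity), XX_pos] with T h1 h2
  rw [Real.dist_eq]
  have e1 : f T / XX T - a / (2 * Real.pi) = (f T - a * (XX T / (2 * Real.pi))) / XX T := by
    have := h2.ne'
    field_simp
  rw [e1, abs_div, abs_of_pos h2, div_lt_iff₀ h2]
  have : ε / 2 * XX T < ε * XX T := mul_lt_mul_of_pos_right (by linarith) h2
  linarith

lemma lim_ratio {f g : ℝ → ℝ} {a : ℝ} (hf : Tendsto (fun T => f T / XX T) atTop (𝓝 (a / (2 * Real.pi))))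
    (hg : Tendsto (fun T => g T / XX T) atTop (𝓝 (1 / (2 * Real.pi)))) :
    Tendsto (fun T => f T / g T) atTop (𝓝 a) := by
  have hpi := Real.pi_pos
  have h1 := hf.div hg (by positivity)
  have e1 : a / (2 * Real.pi) / (1 / (2 * Real.pi)) = a := by field_simp
  rw [e1] at h1
  refine h1.congr' ?_
  filter_upwards [XX_pos] with T hT
  show f T / XX T / (g T / XX T) = f T / g T
  rw [div_div_div_cancel_right₀ hT.ne']

/-- the uniform input -/
def Uni (M : ℝ → ℝ → ℝ) (d : ℝ → ℝ) (k1 k2 : ℝ) : Prop := ∀ ε : ℝ, 0 < ε → ∀ᶠ T in atTop, ∀ k : ℝ, k1 ≤ k → k ≤ k2 →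
  |(2 * d T) ^ (k ^ 2) * M k T - (aC k).re * (XX T / (2 * Real.pi))| ≤ ε * XX T

/-- the law from the moments -/
theorem law_of {d : ℝ → ℝ} (hd : Ad d) (hc : S_CON) (F : ℝ → Finset ℂ) {k k1 k2 : ℝ} (hk1 : 0 < k1) (hk : k1 < k)
    (hk2 : k < k2) (hU : Uni (fun k T => ∑ s ∈ F T, mu s * mz (d T) s.im ^ (2 * k)) d k1 k2) (x : ℝ) :
    Tendsto (fun T => (∑ s ∈ (F T).filter (fun s => (Real.log (mz (d T) s.im) - k * Real.log (1 / (2 * d T))) /
        Real.sqrt (Real.log (1 / (2 * d T)) / 2) ≤ x), mu s * mz (d T) s.im ^ (2 * k)) /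
      ∑ s ∈ F T, mu s * mz (d T) s.im ^ (2 * k)) atTop (𝓝 (Phi x)) := by
  have hk0 : 0 < k := by linarith
  obtain ⟨a, ha, hak⟩ := hc.2 k
  have hakr : (aC k).re = a := by rw [hak, Complex.ofReal_re]
  have hpi := Real.pi_pos
  have hlim : ∀ κ : ℝ → ℝ, Tendsto κ atTop (𝓝 k) →
      Tendsto (fun T => (2 * d T) ^ (κ T ^ 2) * (∑ s ∈ F T, mu s * mz (d T) s.im ^ (2 * κ T)) / XX T) atTop
        (𝓝 (a / (2 * Real.pi))) := by
    intro κ hκ
    have hcont : Continuous fun k : ℝ => (aC (k:ℂ)).re :=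
      Complex.continuous_re.comp (hc.1.comp Complex.continuous_ofReal)
    have h1 : Tendsto (fun T => (aC (κ T)).re) atTop (𝓝 a) := by
      have := (hcont.tendsto k).comp hκ
      rw [hakr] at this
      exact this
    refine lim_of fun ε hε => ?_
    have h2 : ∀ᶠ T in atTop, |(aC (κ T)).re - a| ≤ ε := by
      have := (Metric.tendsto_nhds.1 h1) ε hε
      filter_upwards [this] with T hT
      rw [Real.dist_eq] at hT
      exact hT.le
    filter_upwards [hU (ε / 2) (by positivity), hκ.eventually_const_lt hk, hκ.eventually_le_const hk2, h2, XX_pos]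
      with T a1 a2 a3 a4 a5
    have b1 := a1 (κ T) a2.le a3
    have b2 : |(aC (κ T)).re * (XX T / (2 * Real.pi)) - a * (XX T / (2 * Real.pi))| ≤ ε / 2 * XX T := by
      rw [← sub_mul, abs_mul, abs_of_pos (show 0 < XX T / (2 * Real.pi) by positivity)]
      have b3 : XX T / (2 * Real.pi) ≤ XX T / 2 := by
        apply div_le_div_of_nonneg_left a5.le (by norm_num)
        have := Real.pi_gt_three
        linarith
      calc |(aC (κ T)).re - a| * (XX T / (2 * Real.pi)) ≤ ε * (XX T / 2) := mul_le_mul a4 b3 (by positivity) hε.le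
        _ = _ := by ring
    have b4 := abs_add_le ((2 * d T) ^ (κ T ^ 2) * (∑ s ∈ F T, mu s * mz (d T) s.im ^ (2 * κ T)) -
      (aC (κ T)).re * (XX T / (2 * Real.pi))) ((aC (κ T)).re * (XX T / (2 * Real.pi)) - a * (XX T / (2 * Real.pi)))
    rw [sub_add_sub_cancel] at b4
    linarith
  have h0 := hlim (fun _ => k) tendsto_const_nhds
  have hWpos : ∀ᶠ T in atTop, 0 < ∑ s ∈ F T, mu s * mz (d T) s.im ^ (2 * k) := by
    have h1 := h0.eventually_const_lt (show 0 < a / (2 * Real.pi) by positivity)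
    filter_upwards [h1, XX_pos, hd.pos] with T a1 a2 a3
    have a4 : 0 < (2 * d T) ^ (k ^ 2) := Real.rpow_pos_of_pos (by linarith) _
    have a5 : 0 < (2 * d T) ^ (k ^ 2) * (∑ s ∈ F T, mu s * mz (d T) s.im ^ (2 * k)) := (div_pos_iff_of_pos_right a2).1 a1
    exact (mul_pos_iff_of_pos_left a4).1 a5
  obtain ⟨σ, hσ⟩ : ∃ σ : ℝ → ℝ, ∀ T, σ T = Real.sqrt (Real.log (1 / (2 * d T)) / 2) := ⟨_, fun _ => rfl⟩
  have hl : Tendsto (fun T => Real.log (1 / (2 * d T))) atTop atTop := by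
    refine Real.tendsto_log_atTop.comp ?_
    have h1 : Tendsto (fun T => 2 * d T) atTop (𝓝[>] 0) := by
      refine tendsto_nhdsWithin_of_tendsto_nhds_of_eventually_within _ (by simpa using hd.t0.const_mul 2) ?_
      filter_upwards [hd.pos] with T hT
      show 0 < 2 * d T
      linarith
    have := tendsto_inv_nhdsGT_zero.comp h1
    refine this.congr fun T => ?_
    show (2 * d T)⁻¹ = 1 / (2 * d T)
    rw [one_div]
  have hσt : Tendsto σ atTop atTop := by
    have h1 : Tendsto (fun T => Real.sqrt (Real.log (1 / (2 * d T)) / 2)) atTop atTop :=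
      Real.tendsto_sqrt_atTop.comp (hl.atTop_div_const (by norm_num))
    exact h1.congr fun T => (hσ T).symm
  refine disc_law F (fun T s => mu s * mz (d T) s.im ^ (2 * k))
    (fun T s => (Real.log (mz (d T) s.im) - k * Real.log (1 / (2 * d T))) / Real.sqrt (Real.log (1 / (2 * d T)) / 2))
    (fun T s => mul_nonneg (mu_nn s) (mzk_nn _ _ _)) hWpos (fun u => ?_) x
  have hκ : Tendsto (fun T => k + u / (2 * σ T)) atTop (𝓝 k) := by
    have h1 : Tendsto (fun T => u / (2 * σ T)) atTop (𝓝 0) :=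
      Tendsto.div_atTop tendsto_const_nhds (hσt.const_mul_atTop (by norm_num))
    simpa using h1.const_add k
  have h1 := hlim _ hκ
  have h2 := h1.div h0 (show a / (2 * Real.pi) ≠ 0 by positivity)
  rw [div_self (show a / (2 * Real.pi) ≠ 0 by positivity)] at h2
  have h3 := h2.const_mul (Real.exp (u ^ 2 / 2))
  rw [mul_one] at h3
  refine h3.congr' ?_
  filter_upwards [hWpos, XX_pos, hd.pos, hσt.eventually_gt_atTop 0, hκ.eventually_const_lt hk0,
    hl.eventually_gt_atTop 0] with T a1 a2 a3 a4 a5 a6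
  obtain ⟨l, hll⟩ : ∃ l : ℝ, l = Real.log (1 / (2 * d T)) := ⟨_, rfl⟩
  obtain ⟨S, hS⟩ : ∃ S : ℝ, S = ∑ s ∈ F T, mu s * mz (d T) s.im ^ (2 * k) := ⟨_, rfl⟩
  obtain ⟨S', hS'⟩ : ∃ S' : ℝ, S' = ∑ s ∈ F T, mu s * mz (d T) s.im ^ (2 * (k + u / (2 * σ T))) := ⟨_, rfl⟩
  have hσT : σ T = Real.sqrt (Real.log (1 / (2 * d T)) / 2) := hσ T
  have hσ2 : σ T ^ 2 = l / 2 := by
    rw [hσT, Real.sq_sqrt (by linarith), hll]
  -- the exponential sum
  have hexp : ∑ s ∈ F T, mu s * mz (d T) s.im ^ (2 * k) *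
      Real.exp (u * ((Real.log (mz (d T) s.im) - k * Real.log (1 / (2 * d T))) / Real.sqrt (Real.log (1 / (2 * d T)) / 2))) =
      Real.exp (-(u * k * l / σ T)) * S' := by
    rw [hS', mul_sum]
    refine sum_congr rfl fun s _ => ?_
    rw [← hσT, ← hll]
    rcases (norm_nonneg (riemannZeta (pw (d T) s.im))).eq_or_lt with h | h
    · have hz : mz (d T) s.im = 0 := h.symm
      rw [hz, Real.zero_rpow (by linarith), Real.zero_rpow (by linarith)]
      ring
    · have hz : 0 < mz (d T) s.im := h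
      have e1 : Real.exp (u * ((Real.log (mz (d T) s.im) - k * l) / σ T)) =
          Real.exp (-(u * k * l / σ T)) * mz (d T) s.im ^ (u / σ T) := by
        rw [Real.rpow_def_of_pos hz, ← Real.exp_add]
        congr 1
        field_simp
        ring
      have e2 : mz (d T) s.im ^ (2 * (k + u / (2 * σ T))) = mz (d T) s.im ^ (2 * k) * mz (d T) s.im ^ (u / σ T) := by
        rw [← Real.rpow_add hz]
        congr 1
        field_simp
      rw [e1, e2]
      ring
  show Real.exp (u ^ 2 / 2) * ((2 * d T) ^ ((k + u / (2 * σ T)) ^ 2) * (∑ s ∈ F T, mu s * mz (d T) s.im ^ (2 * (k + u / (2 * σ T)))) /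
      XX T / ((2 * d T) ^ (k ^ 2) * (∑ s ∈ F T, mu s * mz (d T) s.im ^ (2 * k)) / XX T)) =
    (∑ s ∈ F T, mu s * mz (d T) s.im ^ (2 * k) *
      Real.exp (u * ((Real.log (mz (d T) s.im) - k * Real.log (1 / (2 * d T))) / Real.sqrt (Real.log (1 / (2 * d T)) / 2)))) /
      ∑ s ∈ F T, mu s * mz (d T) s.im ^ (2 * k)
  rw [hexp, ← hS, ← hS']
  rw [← hS] at a1
  have h2d : 0 < 2 * d T := by linarith
  have e3 : (2 * d T) ^ ((k + u / (2 * σ T)) ^ 2) = Real.exp (-(u ^ 2 / 2)) * Real.exp (-(u * k * l / σ T)) * (2 * d T) ^ (k ^ 2) := by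
    have e4 : Real.log (2 * d T) = -l := by
      rw [hll, one_div, Real.log_inv, neg_neg]
    rw [Real.rpow_def_of_pos h2d, Real.rpow_def_of_pos h2d, e4, ← Real.exp_add, ← Real.exp_add]
    congr 1
    have e5 : l = 2 * σ T ^ 2 := by linarith
    rw [e5]
    field_simp
    ring
  rw [e3, div_div_div_cancel_right₀ a2.ne']
  have h4 : 0 < (2 * d T) ^ (k ^ 2) := Real.rpow_pos_of_pos h2d _
  have e6 : Real.exp (u ^ 2 / 2) * Real.exp (-(u ^ 2 / 2)) = 1 := by
    rw [← Real.exp_add]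
    simp
  rw [mul_div_assoc']
  rw [div_eq_div_iff (by positivity) a1.ne']
  linear_combination (Real.exp (-(u * k * l / σ T)) * (2 * d T) ^ (k ^ 2) * S' * S) * e6

end Run7.h751.ZM
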