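import Pool.Agent.Run7.h751.ZM.Z11

set_option autoImplicit false

/-! # The limit theorems under the inputs -/

namespace Run7.h751.ZM

open Finset Filter MeasureTheory Topology
open Pool.Agent.N748.MG

/-- all inputs -/
structure Inputs : Prop where
  dp : Pool.Agent.Q97.UM.S_DPM
  mv : Pool.Agent.Q97.UM.S_MVL
  sa : Pool.Agent.Q97.UM.S_SAMP
  si : Pool.Agent.Q97.UM.S_SAMPI
  l4 : S_L4
  sn : Run7.h310.SP.S_SNIC
  cm : S_CMP
  d1 : S_DIA1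
  d2 : S_DIA2
  c : S_CON
  c1 : 1 < H370.cMTinv
  c2 : H370.cMTinv < 3 / 2
  su : Run7.h310.SP.S_SUM
  f4 : S_F4

open Classical in
/-- the truncated set of zeros -/
noncomputable def Zt (V δ T : ℝ) : Finset ℂ := (Zs T).filter (fun s => mz δ s.im ≤ (2 * δ) ^ (-V))

lemma count_lim (I : Inputs) : Tendsto (fun T => (∑ s ∈ Zs T, mu s) / XX T) atTop (𝓝 (1 / (2 * Real.pi))) := by
  refine lim_of fun ε hε => ?_
  filter_upwards [count I.sa ε hε] with T hT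
  rw [one_mul]
  exact hT

lemma uni_t (I : Inputs) {d : ℝ → ℝ} (hd : Ad d) {k1 k2 V : ℝ} (hk1 : 0 < k1) (hk12 : k1 ≤ k2) (hkV : k2 < V) :
    Uni (fun k T => ∑ s ∈ Zt V (d T) T, mu s * mz (d T) s.im ^ (2 * k)) d k1 k2 := by
  classical
  intro ε hε
  obtain ⟨η, -, -, hev⟩ := trunc I.dp I.mv I.sa I.si I.l4 I.sn I.cm I.d1 I.d2 I.c I.c1 I.c2 k1 k2 V ε hk1 hk12 hkV hε
  filter_upwards [Ad_app hev hd] with T hT k hk hk'
  exact (hT k hk hk').1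

lemma uni_f (I : Inputs) {d : ℝ → ℝ} (hd : Ad d) {k1 k2 : ℝ} (hk1 : 0 < k1) (hk12 : k1 ≤ k2) (hk2 : k2 < 2) :
    Uni (fun k T => ∑ s ∈ Zs T, mu s * mz (d T) s.im ^ (2 * k)) d k1 k2 := by
  intro ε hε
  obtain ⟨η, -, -, hev⟩ := full I.dp I.mv I.sa I.si I.l4 I.sn I.cm I.d1 I.d2 I.c I.c1 I.c2 I.su I.f4 k1 k2 ε hk1 hk12 hk2 hε
  filter_upwards [Ad_app hev hd] with T hT k hk hk'
  exact (hT k hk hk').1

lemma mom_of {d : ℝ → ℝ} (I : Inputs) (F : ℝ → Finset ℂ) {k : ℝ}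
    (hU : Uni (fun k T => ∑ s ∈ F T, mu s * mz (d T) s.im ^ (2 * k)) d k k) :
    Tendsto (fun T => ((2 * d T) ^ (k ^ 2) * ∑ s ∈ F T, mu s * mz (d T) s.im ^ (2 * k)) / ∑ s ∈ Zs T, mu s) atTop
      (𝓝 (aC k).re) := by
  refine lim_ratio (lim_of fun ε hε => ?_) (count_lim I)
  filter_upwards [hU ε hε] with T hT
  exact hT k le_rfl le_rfl

theorem mom_t (I : Inputs) {d : ℝ → ℝ} (hd : Ad d) {k V : ℝ} (hk : 0 < k) (hV : k < V) :
    Tendsto (fun T => ((2 * d T) ^ (k ^ 2) * ∑ s ∈ Zt V (d T) T, mu s * mz (d T) s.im ^ (2 * k)) / ∑ s ∈ Zs T, mu s)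
      atTop (𝓝 (aC k).re) := mom_of I _ (uni_t I hd hk le_rfl hV)

theorem mom_f (I : Inputs) {d : ℝ → ℝ} (hd : Ad d) {k : ℝ} (hk : 0 < k) (hV : k < 2) :
    Tendsto (fun T => ((2 * d T) ^ (k ^ 2) * ∑ s ∈ Zs T, mu s * mz (d T) s.im ^ (2 * k)) / ∑ s ∈ Zs T, mu s)
      atTop (𝓝 (aC k).re) := mom_of I _ (uni_f I hd hk le_rfl hV)

theorem law_t (I : Inputs) {d : ℝ → ℝ} (hd : Ad d) {k V : ℝ} (hk : 0 < k) (hV : k < V) (x : ℝ) :
    Tendsto (fun T => (∑ s ∈ (Zt V (d T) T).filter (fun s => (Real.log (mz (d T) s.im) - k * Real.log (1 / (2 * d T))) /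
        Real.sqrt (Real.log (1 / (2 * d T)) / 2) ≤ x), mu s * mz (d T) s.im ^ (2 * k)) /
      ∑ s ∈ Zt V (d T) T, mu s * mz (d T) s.im ^ (2 * k)) atTop (𝓝 (Phi x)) :=
  law_of hd I.c _ (k1 := k / 2) (k2 := (k + V) / 2) (by linarith) (by linarith) (by linarith)
    (uni_t I hd (by linarith) (by linarith) (by linarith)) x

theorem law_f (I : Inputs) {d : ℝ → ℝ} (hd : Ad d) {k : ℝ} (hk : 0 < k) (hV : k < 2) (x : ℝ) :
    Tendsto (fun T => (∑ s ∈ (Zs T).filter (fun s => (Real.log (mz (d T) s.im) - k * Real.log (1 / (2 * d T))) /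
        Real.sqrt (Real.log (1 / (2 * d T)) / 2) ≤ x), mu s * mz (d T) s.im ^ (2 * k)) /
      ∑ s ∈ Zs T, mu s * mz (d T) s.im ^ (2 * k)) atTop (𝓝 (Phi x)) :=
  law_of hd I.c _ (k1 := k / 2) (k2 := (k + 2) / 2) (by linarith) (by linarith) (by linarith)
    (uni_f I hd (by linarith) (by linarith) (by linarith)) x

/-- shares from asymptotics -/
lemma share_pt {a c' ε f g W : ℝ} (ha : 0 < a) (hc0 : 0 ≤ c') (hc1 : c' ≤ 1) (hε : 0 < ε) (hW : 0 < W)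
    (hf : |f - a * (W / (2 * Real.pi))| ≤ ε * a / (2 * Real.pi * (2 + ε)) * W)
    (hg : c' * a * (W / (2 * Real.pi)) - ε * a / (2 * Real.pi * (2 + ε)) * W ≤ g) : (c' - ε) * f ≤ g := by
  obtain ⟨e, he⟩ : ∃ e : ℝ, e = ε * a / (2 * Real.pi * (2 + ε)) := ⟨_, rfl⟩
  rw [← he] at hf hg
  have hpi := Real.pi_pos
  have he0 : 0 < e := by rw [he]; positivity
  have h1 : (2 + ε) * e = ε * a / (2 * Real.pi) := by
    rw [he]
    field_simp
  obtain ⟨h2, h3⟩ := abs_le.1 hf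
  obtain ⟨A, hA⟩ : ∃ A : ℝ, A = a * (W / (2 * Real.pi)) := ⟨_, rfl⟩
  have hg' : c' * A - e * W ≤ g := by rw [hA]; linarith
  rw [← hA] at h2 h3
  have h4 : ε * A = (2 + ε) * e * W := by rw [h1, hA]; ring
  have h5 : c' * f ≤ c' * A + e * W := by
    have h6 : c' * f ≤ c' * (A + e * W) := mul_le_mul_of_nonneg_left (by linarith) hc0
    have h7 : c' * (e * W) ≤ 1 * (e * W) := mul_le_mul_of_nonneg_right hc1 (by positivity)
    linarith
  have h8 : ε * (A - e * W) ≤ ε * f := mul_le_mul_of_nonneg_left (by linarith) hε.le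
  have h9 : (c' - ε) * f = c' * f - ε * f := by ring
  have h10 : ε * (A - e * W) = ε * A - ε * (e * W) := by ring
  have h11 : (2 + ε) * e * W = 2 * (e * W) + ε * (e * W) := by ring
  rw [h9]
  linarith

open Classical in
/-- the shares of the isolated simple zeros on the line, and of the distinct zeros not right of it -/
theorem share_t (I : Inputs) {d : ℝ → ℝ} (hd : Ad d) {k V : ℝ} (hk : 0 < k) (hV : k < V) {ε : ℝ} (hε : 0 < ε) :
    ∃ η : ℝ, 0 < η ∧ η ≤ 1 ∧ ∀ᶠ T in atTop,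
      0 < ∑ s ∈ Zt V (d T) T, mu s * mz (d T) s.im ^ (2 * k) ∧
      (2 - H370.cMTinv - ε) * ∑ s ∈ Zt V (d T) T, mu s * mz (d T) s.im ^ (2 * k) ≤
        ∑ s ∈ (Pool.Agent.Q97.UM.ZI η T).filter (fun s => mz (d T) s.im ≤ (2 * d T) ^ (-V)), mz (d T) s.im ^ (2 * k) ∧
      ((3 - H370.cMTinv) / 2 - ε) * ∑ s ∈ Zt V (d T) T, mu s * mz (d T) s.im ^ (2 * k) ≤
        ∑ s ∈ ((Zs T).filter (fun s => s.re ≤ 1 / 2)).filter (fun s => mz (d T) s.im ≤ (2 * d T) ^ (-V)),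
          mz (d T) s.im ^ (2 * k) := by
  obtain ⟨a, ha, hak⟩ := I.c.2 k
  have hakr : (aC k).re = a := by rw [hak, Complex.ofReal_re]
  have hpi := Real.pi_pos
  obtain ⟨η, hη, hη1, hev⟩ := trunc I.dp I.mv I.sa I.si I.l4 I.sn I.cm I.d1 I.d2 I.c I.c1 I.c2 k k V
    (ε * a / (2 * Real.pi * (2 + ε))) hk le_rfl hV (by positivity)
  refine ⟨η, hη, hη1, ?_⟩
  have hc1 := I.c1
  have hc2 := I.c2
  filter_upwards [Ad_app hev hd, XX_pos, hd.pos] with T hT hX hd0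
  obtain ⟨m1, m2, m3⟩ := hT k le_rfl le_rfl
  rw [hakr] at m1 m2 m3
  have hZ : Zt V (d T) T = (Zs T).filter (fun s => mz (d T) s.im ≤ (2 * d T) ^ (-V)) := rfl
  rw [← hZ] at m1
  obtain ⟨S, hS⟩ : ∃ S : ℝ, S = ∑ s ∈ Zt V (d T) T, mu s * mz (d T) s.im ^ (2 * k) := ⟨_, rfl⟩
  rw [← hS] at m1 ⊢
  obtain ⟨q, hq⟩ : ∃ q : ℝ, q = (2 * d T) ^ (k ^ 2) := ⟨_, rfl⟩
  rw [← hq] at m1 m2 m3
  have hq0 : 0 < q := by rw [hq]; exact Real.rpow_pos_of_pos (by linarith) _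
  have hXX : XX T = T * Real.log T := rfl
  rw [← hXX] at m1 m2 m3
  refine ⟨?_, ?_, ?_⟩
  · have h1 := (abs_le.1 m1).1
    have h2 : ε * a / (2 * Real.pi * (2 + ε)) * XX T < a * (XX T / (2 * Real.pi)) := by
      have e1 : ε * a / (2 * Real.pi * (2 + ε)) * XX T = (ε / (2 + ε)) * (a * (XX T / (2 * Real.pi))) := by
        field_simp
      rw [e1]
      have e2 : ε / (2 + ε) < 1 := by rw [div_lt_one (by linarith)]; linarith
      have e3 : 0 < a * (XX T / (2 * Real.pi)) := by positivity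
      exact mul_lt_of_lt_one_left e3 e2
    have h3 : 0 < q * S := by linarith
    exact (mul_pos_iff_of_pos_left hq0).1 h3
  · have h1 := share_pt (c' := 2 - H370.cMTinv) ha (by linarith) (by linarith) hε hX m1 m2
    rw [mul_left_comm] at h1
    exact le_of_mul_le_mul_left h1 hq0
  · have h1 := share_pt (c' := (3 - H370.cMTinv) / 2) ha (by linarith) (by linarith) hε hX m1 m3
    rw [mul_left_comm] at h1
    exact le_of_mul_le_mul_left h1 hq0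

open Classical in
/-- the same without truncation for the orders below four -/
theorem share_f (I : Inputs) {d : ℝ → ℝ} (hd : Ad d) {k : ℝ} (hk : 0 < k) (hV : k < 2) {ε : ℝ} (hε : 0 < ε) :
    ∃ η : ℝ, 0 < η ∧ η ≤ 1 ∧ ∀ᶠ T in atTop,
      0 < ∑ s ∈ Zs T, mu s * mz (d T) s.im ^ (2 * k) ∧
      (2 - H370.cMTinv - ε) * ∑ s ∈ Zs T, mu s * mz (d T) s.im ^ (2 * k) ≤
        ∑ s ∈ Pool.Agent.Q97.UM.ZI η T, mz (d T) s.im ^ (2 * k) ∧
      ((3 - H370.cMTinv) / 2 - ε) * ∑ s ∈ Zs T, mu s * mz (d T) s.im ^ (2 * k) ≤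
        ∑ s ∈ (Zs T).filter (fun s => s.re ≤ 1 / 2), mz (d T) s.im ^ (2 * k) := by
  obtain ⟨a, ha, hak⟩ := I.c.2 k
  have hakr : (aC k).re = a := by rw [hak, Complex.ofReal_re]
  have hpi := Real.pi_pos
  obtain ⟨η, hη, hη1, hev⟩ := full I.dp I.mv I.sa I.si I.l4 I.sn I.cm I.d1 I.d2 I.c I.c1 I.c2 I.su I.f4 k k
    (ε * a / (2 * Real.pi * (2 + ε))) hk le_rfl hV (by positivity)
  refine ⟨η, hη, hη1, ?_⟩
  have hc1 := I.c1
  have hc2 := I.c2
  filter_upwards [Ad_app hev hd, XX_pos, hd.pos] with T hT hX hd0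
  obtain ⟨m1, m2, m3⟩ := hT k le_rfl le_rfl
  rw [hakr] at m1 m2 m3
  obtain ⟨S, hS⟩ : ∃ S : ℝ, S = ∑ s ∈ Zs T, mu s * mz (d T) s.im ^ (2 * k) := ⟨_, rfl⟩
  rw [← hS] at m1 ⊢
  obtain ⟨q, hq⟩ : ∃ q : ℝ, q = (2 * d T) ^ (k ^ 2) := ⟨_, rfl⟩
  rw [← hq] at m1 m2 m3
  have hq0 : 0 < q := by rw [hq]; exact Real.rpow_pos_of_pos (by linarith) _
  have hXX : XX T = T * Real.log T := rfl
  rw [← hXX] at m1 m2 m3
  refine ⟨?_, ?_, ?_⟩
  · have h1 := (abs_le.1 m1).1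
    have h2 : ε * a / (2 * Real.pi * (2 + ε)) * XX T < a * (XX T / (2 * Real.pi)) := by
      have e1 : ε * a / (2 * Real.pi * (2 + ε)) * XX T = (ε / (2 + ε)) * (a * (XX T / (2 * Real.pi))) := by
        field_simp
      rw [e1]
      have e2 : ε / (2 + ε) < 1 := by rw [div_lt_one (by linarith)]; linarith
      have e3 : 0 < a * (XX T / (2 * Real.pi)) := by positivity
      exact mul_lt_of_lt_one_left e3 e2
    have h3 : 0 < q * S := by linarith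
    exact (mul_pos_iff_of_pos_left hq0).1 h3
  · have h1 := share_pt (c' := 2 - H370.cMTinv) ha (by linarith) (by linarith) hε hX m1 m2
    rw [mul_left_comm] at h1
    exact le_of_mul_le_mul_left h1 hq0
  · have h1 := share_pt (c' := (3 - H370.cMTinv) / 2) ha (by linarith) (by linarith) hε hX m1 m3
    rw [mul_left_comm] at h1
    exact le_of_mul_le_mul_left h1 hq0

end Run7.h751.ZM
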