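import Pool.Agent.Run7.h751.ZM.Z13

set_option autoImplicit false

/-! # Moments up to a level -/

namespace Run7.h751.ZM

open Finset Filter MeasureTheory Topology
open Pool.Agent.N748.MG

/-- the level -/
noncomputable def lev (k x δ : ℝ) : ℝ := (2 * δ) ^ (-k) * Real.exp (x * Real.sqrt (Real.log (1 / (2 * δ)) / 2))

open Classical in
theorem mom_lev (I : Inputs) {d : ℝ → ℝ} (hd : Ad d) {k : ℝ} (hk : 0 < k) (x : ℝ) :
    Tendsto (fun T => ((2 * d T) ^ (k ^ 2) * ∑ s ∈ (Zs T).filter (fun s => mz (d T) s.im ≤ lev k x (d T)),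
      mu s * mz (d T) s.im ^ (2 * k)) / ∑ s ∈ Zs T, mu s) atTop (𝓝 ((aC k).re * Phi x)) := by
  have h1 := law_t I hd (V := k + 1) hk (by linarith) x
  have h2 := mom_t I hd (V := k + 1) hk (by linarith)
  obtain ⟨η, -, -, h3⟩ := share_t I hd (V := k + 1) hk (by linarith) one_pos
  have hl : Tendsto (fun T => Real.log (1 / (2 * d T))) atTop atTop := by
    refine Real.tendsto_log_atTop.comp ?_
    have h1 : Tendsto (fun T => 2 * d T) atTop (𝓝[>] 0) := by
      refine tendsto_nhdsWithin_of_tendsto_nhds_of_eventually_within _ (by simpa using hd.t0.const_mul 2) ?_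
      filter_upwards [hd.pos] with T hT
      show 0 < 2 * d T
      linarith
    have := tendsto_inv_nhdsGT_zero.comp h1
    refine this.congr fun T => ?_
    show (2 * d T)⁻¹ = 1 / (2 * d T)
    rw [one_div]
  have h4 := h2.mul h1
  refine h4.congr' ?_
  filter_upwards [h3, hd.pos, hl.eventually_ge_atTop (max 1 (x ^ 2)), hl.eventually_gt_atTop 0] with T a1 a2 a3 a4
  obtain ⟨b1, -, -⟩ := a1
  obtain ⟨l, hll⟩ : ∃ l : ℝ, l = Real.log (1 / (2 * d T)) := ⟨_, rfl⟩
  obtain ⟨σ, hσ⟩ : ∃ σ : ℝ, σ = Real.sqrt (Real.log (1 / (2 * d T)) / 2) := ⟨_, rfl⟩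
  rw [← hll] at a3 a4
  have hσ0 : 0 < σ := by rw [hσ, ← hll]; exact Real.sqrt_pos.2 (by linarith)
  have hσ2 : σ ^ 2 = l / 2 := by rw [hσ, ← hll, Real.sq_sqrt (by linarith)]
  have h2d : 0 < 2 * d T := by linarith
  have hlog : Real.log (2 * d T) = -l := by rw [hll, one_div, Real.log_inv, neg_neg]
  have hlev : lev k x (d T) = Real.exp (k * l + x * σ) := by
    unfold lev
    rw [← hσ, Real.rpow_def_of_pos h2d, hlog, ← Real.exp_add]
    congr 1
    ring
  have hxl : x * σ ≤ l := by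
    have h5 : x ^ 2 ≤ l := (le_max_right _ _).trans a3
    have h6 : (x * σ) ^ 2 ≤ l ^ 2 := by
      rw [mul_pow, hσ2]
      nlinarith [sq_nonneg x]
    exact (abs_le_of_sq_le_sq' h6 a4.le).2
  have hV : lev k x (d T) ≤ (2 * d T) ^ (-(k + 1)) := by
    rw [hlev, Real.rpow_def_of_pos h2d, hlog]
    apply Real.exp_le_exp.2
    have : -l * -(k + 1) = k * l + l := by ring
    linarith
  -- the two sums agree
  have hsum : ∑ s ∈ (Zt (k + 1) (d T) T).filter (fun s => (Real.log (mz (d T) s.im) - k * Real.log (1 / (2 * d T))) /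
        Real.sqrt (Real.log (1 / (2 * d T)) / 2) ≤ x), mu s * mz (d T) s.im ^ (2 * k) =
      ∑ s ∈ (Zs T).filter (fun s => mz (d T) s.im ≤ lev k x (d T)), mu s * mz (d T) s.im ^ (2 * k) := by
    unfold Zt
    rw [sum_filter, sum_filter, sum_filter]
    refine sum_congr rfl fun s _ => ?_
    rw [← hσ, ← hll]
    rcases (norm_nonneg (riemannZeta (pw (d T) s.im))).eq_or_lt with h | h
    · have hz : mz (d T) s.im = 0 := h.symm
      have e0 : mz (d T) s.im ^ (2 * k) = 0 := by rw [hz, Real.zero_rpow (by positivity)]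
      rw [e0, mul_zero]
      simp
    · have hz : 0 < mz (d T) s.im := h
      have hiff : (Real.log (mz (d T) s.im) - k * l) / σ ≤ x ↔ mz (d T) s.im ≤ lev k x (d T) := by
        rw [div_le_iff₀ hσ0, hlev, ← Real.log_le_iff_le_exp hz]
        constructor <;> intro h' <;> linarith
      by_cases hc : mz (d T) s.im ≤ lev k x (d T)
      · rw [if_pos hc, if_pos (hc.trans hV), if_pos (hiff.2 hc)]
      · rw [if_neg hc, if_neg (fun h' => hc (hiff.1 h'))]
        simp
  show ((2 * d T) ^ (k ^ 2) * ∑ s ∈ Zt (k + 1) (d T) T, mu s * mz (d T) s.im ^ (2 * k)) / (∑ s ∈ Zs T, mu s) *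
    ((∑ s ∈ (Zt (k + 1) (d T) T).filter (fun s => (Real.log (mz (d T) s.im) - k * Real.log (1 / (2 * d T))) /
        Real.sqrt (Real.log (1 / (2 * d T)) / 2) ≤ x), mu s * mz (d T) s.im ^ (2 * k)) /
      ∑ s ∈ Zt (k + 1) (d T) T, mu s * mz (d T) s.im ^ (2 * k)) = _
  rw [hsum]
  have h5 := b1.ne'
  rw [div_mul_div_comm, mul_comm (∑ s ∈ Zs T, mu s), mul_right_comm,
    mul_comm ((2 * d T) ^ (k ^ 2) * ∑ s ∈ (Zs T).filter (fun s => mz (d T) s.im ≤ lev k x (d T)),
      mu s * mz (d T) s.im ^ (2 * k)), mul_div_mul_left _ _ h5]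

end Run7.h751.ZM
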