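import Pool.Agent.Run7.h751.ZM.Z8
import Pool.Agent.N748.MG.Ev
import Pool.Agent.Y755.Fin4

set_option autoImplicit false

/-! # The fourth moment near the line -/

namespace Run7.h751.ZM

open Finset Filter MeasureTheory Topology Complex
open Pool.Agent.N748.MG

/-- the size of the diagonal series -/
lemma DD_bd : ∃ C d0 : ℝ, 0 < C ∧ 0 < d0 ∧ ∀ δ : ℝ, 0 < δ → δ ≤ d0 → Pool.Agent.Y755.DD 2 δ ≤ C * δ ^ (-(4:ℝ)) := by
  have h := Pool.Agent.Y755.DD_asym (α := 2) (by norm_num) (δ := fun T => 1 / T)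
    ((eventually_gt_atTop 0).mono fun T hT => by positivity)
    (by simpa using tendsto_inv_atTop_zero)
  have h2 := h.eventually_le_const (lt_add_one _)
  obtain ⟨T0, hT0⟩ := eventually_atTop.1 (h2.and (eventually_gt_atTop 0))
  set A : ℝ := |Pool.Agent.H306R2.aF 2 + 1| + 1 with hA
  refine ⟨A, 1 / max T0 1, by positivity, by positivity, fun δ h0 h1 => ?_⟩
  have h3 : max T0 1 ≤ 1 / δ := by
    have hm : 0 < max T0 1 := lt_max_of_lt_right one_pos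
    rw [le_div_iff₀ h0]
    rw [le_div_iff₀ hm] at h1
    linarith
  have h4 := (hT0 (1 / δ) ((le_max_left _ _).trans h3)).1
  simp only [one_div_one_div] at h4
  have h5 : (2 * δ) ^ ((2:ℝ) ^ 2) = 16 * δ ^ (4:ℝ) := by
    rw [show ((2:ℝ) ^ 2) = 4 by norm_num, Real.mul_rpow (by norm_num) h0.le]
    norm_num
  rw [h5] at h4
  have h6 := le_abs_self (Pool.Agent.H306R2.aF 2 + 1)
  have h7 := abs_nonneg (Pool.Agent.H306R2.aF 2 + 1)
  have h8 : 0 < δ ^ (4:ℝ) := Real.rpow_pos_of_pos h0 _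
  have h9 : δ ^ (-(4:ℝ)) * δ ^ (4:ℝ) = 1 := by
    rw [← Real.rpow_add h0]
    simp
  have h10 : 0 < δ ^ (-(4:ℝ)) := Real.rpow_pos_of_pos h0 _
  have h11 : Pool.Agent.Y755.DD 2 δ * δ ^ (4:ℝ) ≤ A := by
    rcases le_or_gt (Pool.Agent.Y755.DD 2 δ) 0 with hd | hd
    · have : Pool.Agent.Y755.DD 2 δ * δ ^ (4:ℝ) ≤ 0 := mul_nonpos_of_nonpos_of_nonneg hd h8.le
      linarith
    · have : 0 < Pool.Agent.Y755.DD 2 δ * δ ^ (4:ℝ) := by positivity
      nlinarith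
  calc Pool.Agent.Y755.DD 2 δ = (Pool.Agent.Y755.DD 2 δ * δ ^ (4:ℝ)) * δ ^ (-(4:ℝ)) := by
        rw [mul_assoc, mul_comm (δ ^ (4:ℝ)), h9, mul_one]
    _ ≤ A * δ ^ (-(4:ℝ)) := mul_le_mul_of_nonneg_right h11 h10.le

theorem f4 : S_F4 := by
  obtain ⟨C, d0, hC, hd0, hD⟩ := DD_bd
  obtain ⟨lam, hl1, hmom⟩ := Pool.Agent.Y755.mom_up4 (α := 2) (by norm_num) le_rfl (ε := 1) one_pos
  have h1 := hmom 0
  refine ⟨32 * C + 4, by positivity, ((((Ev.of_ev h1).and (Ev.lam (2 * lam))).and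
    (Ev.of_le (show 0 < d0 / 2 by positivity))).and (Ev.of_le (show (0:ℝ) < 1 / 24 by norm_num))).mono ?_⟩
  rintro X δ hX1 h0 h1' ⟨⟨⟨h2, h3⟩, h4⟩, h5⟩ δ' hδ1 hδ2
  have hX0 : 0 < X := by linarith
  have hL := log_inv_ge h0 h1'
  have hδ'0 : 0 < δ' := by linarith
  have hlogX : 0 < Real.log X := by
    have : 0 < δ * Real.log X := by
      have : 0 < 2 * lam * Real.log (1 / δ) ^ 2 := by positivity
      linarith
    exact (mul_pos_iff_of_pos_left h0).1 this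
  have h6 : lam / Real.log X ≤ δ' := by
    rw [div_le_iff₀ hlogX]
    have h7 : 2 * lam ≤ 2 * lam * Real.log (1 / δ) ^ 2 := by
      have : 1 ≤ Real.log (1 / δ) ^ 2 := one_le_pow₀ hL
      nlinarith
    nlinarith
  have h8 := h2 δ' h6 (by linarith)
  have h9 := hD δ' hδ'0 (by linarith)
  have h10 : Pool.Agent.Y755.mom (2 * 2) (1 / 2 + δ') 0 X * X =
      ∫ t in (0:ℝ)..X, ‖riemannZeta (pw δ' t) ^ 2‖ ^ 2 := by
    unfold Pool.Agent.Y755.mom
    have e1 := intervalIntegral.integral_comp_mul_right (a := 0) (b := 1)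
      (fun t : ℝ => ‖riemannZeta (pw δ' t) ^ 2‖ ^ 2) hX0.ne'
    rw [zero_mul, one_mul, smul_eq_mul] at e1
    have e2 : ∫ t in (0:ℝ)..X, ‖riemannZeta (pw δ' t) ^ 2‖ ^ 2 =
        X * ∫ x in (0:ℝ)..1, ‖riemannZeta (pw δ' (x * X)) ^ 2‖ ^ 2 := by
      rw [e1, ← mul_assoc, mul_inv_cancel₀ hX0.ne', one_mul]
    rw [e2, mul_comm]
    congr 1
    refine intervalIntegral.integral_congr fun u _ => ?_
    show ‖riemannZeta _‖ ^ (2 * 2 : ℝ) = ‖riemannZeta _ ^ 2‖ ^ 2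
    rw [norm_pow, ← pow_mul, show (2 * 2 : ℝ) = ((2 * 2 : ℕ) : ℝ) by norm_num, Real.rpow_natCast]
    congr 3
    unfold pw
    push_cast
    ring
  rw [← h10]
  have h11 : δ' ^ (-(4:ℝ)) ≤ 16 * δ ^ (-(4:ℝ)) := by
    have e1 : (δ / 2) ^ (-(4:ℝ)) = 16 * δ ^ (-(4:ℝ)) := by
      rw [Real.div_rpow h0.le (by norm_num), Real.rpow_neg (show (0:ℝ) ≤ 2 by norm_num), div_inv_eq_mul, mul_comm]
      norm_num
    rw [← e1]
    exact Real.rpow_le_rpow_of_nonpos (by linarith) hδ1 (by norm_num)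
  have h12 : δ ^ (-(4:ℝ)) ≤ δ ^ (-(32 * C + 4)) := Real.rpow_le_rpow_of_exponent_ge h0 (by linarith) (by linarith)
  have h13 : 0 < δ ^ (-(4:ℝ)) := Real.rpow_pos_of_pos h0 _
  calc Pool.Agent.Y755.mom (2 * 2) (1 / 2 + δ') 0 X * X ≤ ((1 + 1) * (C * (16 * δ ^ (-(4:ℝ))))) * X := by
        refine mul_le_mul_of_nonneg_right (h8.trans ?_) hX0.le
        exact mul_le_mul_of_nonneg_left (h9.trans (mul_le_mul_of_nonneg_left h11 hC.le)) (by norm_num)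
    _ = 32 * C * X * δ ^ (-(4:ℝ)) := by ring
    _ ≤ (32 * C + 4) * X * δ ^ (-(32 * C + 4)) := by
        have : 32 * C * X ≤ (32 * C + 4) * X := by nlinarith
        gcongr

end Run7.h751.ZM
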