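import Pool.Agent.Run7.h751.ZM.Z14
import Pool.Agent.Run7.h751.ZM.Z9
import Pool.Agent.Run7.h701.SP_SNIC
import Pool.Agent.Run7.h270.SP.SUM
import Pool.Agent.Q97.UM.Base7
import Pool.Agent.Q97.UM.IsoF
import Pool.Agent.N748.MG.Res
import Pool.Agent.H370R2.RightZeros
import Pool.Agent.H370R2.Kern

set_option autoImplicit false

/-! # The inputs -/

namespace Run7.h751.ZM

theorem inp : Inputs where
  dp := Pool.Agent.Q84.UM.t_DPM
  mv := Pool.Agent.Q84.UM.t_MVL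
  sa := Pool.Agent.Q97.UM.b_SAMP
  si := Pool.Agent.Q97.UM.b_SAMPI
  l4 := Pool.Agent.N748.MG.L4.main Pool.Agent.N748.MG.MVS.main Pool.Agent.N748.MG.SIZ.main
  sn := Run7.h701.SP.t_SNIC
  cm := Pool.Agent.N748.MG.CMP.main Pool.Agent.N748.MG.EUL.main
  d1 := Pool.Agent.N748.MG.DIA1.main
  d2 := Pool.Agent.N748.MG.DIA2.main
  c := Pool.Agent.N748.MG.CON.main
  c1 := H370.cMTinv_gt_one
  c2 := H370.cMTinv_lt
  su := Run7.h270.SP.t_SUM
  f4 := f4

end Run7.h751.ZM
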