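import Pool.Agent.Run7.h751.ZM.Z1
import Pool.Agent.Q97.UM.Stm11

set_option autoImplicit false

/-! # The approximating polynomials as Dirichlet polynomials on the critical line -/

namespace Run7.h751.ZM

open Finset Filter MeasureTheory Topology Complex
open Pool.Agent.N748.MG

/-- the length -/
noncomputable def nA (y : ℝ) (K : ℕ) : ℕ := ⌊y⌋₊ ^ K

open Classical in
/-- the coefficients on the critical line -/
noncomputable def bA (s : ℂ) (δ y : ℝ) (K : ℕ) (n : ℕ) : ℂ :=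
  if n ∈ FS y K then dS s n * (n : ℂ) ^ (-(δ : ℂ)) else 0

lemma FS_sub (y : ℝ) (K : ℕ) : FS y K ⊆ Icc 1 (nA y K) := by
  intro n hn
  unfold FS at hn
  rw [mem_filter, mem_range] at hn
  rw [mem_Icc]
  exact ⟨Nat.one_le_iff_ne_zero.2 hn.2.1, Nat.lt_succ_iff.1 hn.1⟩

lemma FS_pos {y : ℝ} {K n : ℕ} (hn : n ∈ FS y K) : n ≠ 0 := by
  unfold FS at hn
  rw [mem_filter] at hn
  exact hn.2.1

lemma bA_len (s : ℂ) (δ y : ℝ) (K : ℕ) : ∀ n, nA y K < n → bA s δ y K n = 0 := by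
  intro n hn
  unfold bA
  rw [if_neg]
  intro h
  have := (mem_Icc.1 (FS_sub y K h)).2
  omega

lemma dp_bA (s : ℂ) (δ y : ℝ) (K : ℕ) (t : ℝ) :
    Pool.Agent.Q97.UM.dp (nA y K) (bA s δ y K) t = AS s y K (pw δ t) := by
  unfold Pool.Agent.Q97.UM.dp AS
  rw [← sum_subset (FS_sub y K)]
  · refine sum_congr rfl fun n hn => ?_
    unfold bA
    have hn0 : (n : ℂ) ≠ 0 := by exact_mod_cast FS_pos hn
    rw [if_pos hn, mul_assoc, ← Complex.cpow_add _ _ hn0]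
    congr 2
    unfold pw
    ring
  · intro n _ hn
    unfold bA
    rw [if_neg hn, zero_mul]

lemma N2_bA (s : ℂ) (δ y : ℝ) (K : ℕ) :
    Pool.Agent.Q97.UM.N2 (nA y K) (bA s δ y K) = ∑ n ∈ FS y K, ‖dS s n‖ ^ 2 * (n:ℝ) ^ (-(1 + 2 * δ)) := by
  unfold Pool.Agent.Q97.UM.N2
  rw [← sum_subset (FS_sub y K)]
  · refine sum_congr rfl fun n hn => ?_
    unfold bA
    have hn0 : 0 < n := Nat.pos_of_ne_zero (FS_pos hn)
    have hnR : (0:ℝ) < n := by exact_mod_cast hn0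
    rw [if_pos hn, norm_mul, Complex.norm_natCast_cpow_of_pos hn0, mul_pow, mul_div_assoc]
    congr 1
    rw [Complex.neg_re, Complex.ofReal_re, ← Real.rpow_natCast, ← Real.rpow_mul hnR.le, div_eq_mul_inv,
      ← Real.rpow_neg_one, ← Real.rpow_add hnR]
    congr 1
    push_cast
    ring
  · intro n _ hn
    unfold bA
    rw [if_neg hn]
    simp

lemma dS_re (k : ℝ) (n : ℕ) : dS (k:ℂ) n = ((∏ p ∈ n.primeFactors, CON.lR k (n.factorization p) : ℝ) : ℂ) := by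
  unfold dS
  rw [Complex.ofReal_prod]
  exact prod_congr rfl fun p _ => CON.lC_ofReal k _

lemma dS_sq (k : ℝ) (n : ℕ) : dS (k:ℂ) n ^ 2 = ((‖dS (k:ℂ) n‖ ^ 2 : ℝ) : ℂ) := by
  rw [dS_re, Complex.norm_real, Real.norm_eq_abs, sq_abs]
  push_cast
  ring

lemma N2_eq (k : ℝ) (δ y : ℝ) (K : ℕ) : ((Pool.Agent.Q97.UM.N2 (nA y K) (bA (k:ℂ) δ y K) : ℝ) : ℂ) =
    ∑ n ∈ FS y K, dS (k:ℂ) n ^ 2 * (((n:ℝ) ^ (-(1 + 2 * δ)) : ℝ) : ℂ) := by
  rw [N2_bA, Complex.ofReal_sum]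
  refine sum_congr rfl fun n _ => ?_
  rw [dS_sq]
  push_cast
  ring

/-- the asymptotics of the norm -/
theorem N2_asym (h1 : S_DIA1) (h2 : S_DIA2) (hc : S_CON) (R ε : ℝ) (hR : 0 ≤ R) (hε : 0 < ε) :
    ∃ C δ0 : ℝ, 0 < C ∧ 0 < δ0 ∧ ∀ δ : ℝ, 0 < δ → δ ≤ δ0 → ∀ (y : ℝ) (K : ℕ), 2 ≤ y →
      C * Real.log (1 / δ) ≤ δ * Real.log y → C * Real.log (1 / δ) ≤ K → ∀ k : ℝ, |k| ≤ R →
      |(2 * δ) ^ (k ^ 2) * Pool.Agent.Q97.UM.N2 (nA y K) (bA (k:ℂ) δ y K) - (aC k).re| ≤ ε := by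
  obtain ⟨C, d1, hC, hd1, e1⟩ := h1 R 1 hR one_pos
  obtain ⟨d2, hd2, e2⟩ := h2 R hR (ε / 2) (by positivity)
  refine ⟨C, min (min d1 d2) (min (ε / 2) (1 / 2)), hC, by positivity, fun δ hδ hδ0 y K hy g1 g2 k hk => ?_⟩
  have a1 : δ ≤ d1 := hδ0.trans ((min_le_left _ _).trans (min_le_left _ _))
  have a2 : δ ≤ d2 := hδ0.trans ((min_le_left _ _).trans (min_le_right _ _))
  have a3 : δ ≤ ε / 2 := hδ0.trans ((min_le_right _ _).trans (min_le_left _ _))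
  have a4 : δ ≤ 1 / 2 := hδ0.trans ((min_le_right _ _).trans (min_le_right _ _))
  have hkn : ‖(k:ℂ)‖ ≤ R := by rw [Complex.norm_real, Real.norm_eq_abs]; exact hk
  have b1 := e1 δ hδ a1 y K hy g1 g2 k hkn
  have b2 := e2 δ hδ a2 k hkn
  rw [← N2_eq, Real.rpow_one] at b1
  obtain ⟨r, hr, hr2⟩ := hc.2 k
  have e3 : ((2 * δ : ℝ) : ℂ) ^ ((k:ℂ) ^ 2) = (((2 * δ) ^ (k ^ 2) : ℝ) : ℂ) := by
    rw [Complex.ofReal_cpow (by positivity)]
    push_cast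
    rfl
  set N := Pool.Agent.Q97.UM.N2 (nA y K) (bA (k:ℂ) δ y K) with hN
  set S := ∑' n : ℕ, dS (k:ℂ) n ^ 2 * (((n:ℝ) ^ (-(1 + 2 * δ)) : ℝ) : ℂ) with hS
  set q := (2 * δ) ^ (k ^ 2) with hq
  have hq1 : q ≤ 1 := Real.rpow_le_one (by positivity) (by linarith) (by positivity)
  have hq0 : 0 ≤ q := by positivity
  rw [e3] at b2
  have e4 : ((q * N - (aC k).re : ℝ) : ℂ) = (q : ℂ) * ((N : ℂ) - S) + ((q : ℂ) * S - aC k) := by
    rw [hr2]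
    push_cast
    rw [Complex.ofReal_re]
    ring
  have e5 : |q * N - (aC k).re| = ‖((q * N - (aC k).re : ℝ) : ℂ)‖ := by rw [Complex.norm_real, Real.norm_eq_abs]
  rw [e5, e4]
  refine (norm_add_le _ _).trans ?_
  rw [norm_mul, Complex.norm_real, Real.norm_of_nonneg hq0]
  have e6 : q * ‖(N : ℂ) - S‖ ≤ 1 * δ := mul_le_mul hq1 b1 (norm_nonneg _) zero_le_one
  linarith

end Run7.h751.ZM
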