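import Pool.Agent.Run7.h751.ZM.Z2

set_option autoImplicit false

/-! # Zeta at the zeros moved to the right in terms of the polynomials -/

namespace Run7.h751.ZM

open Finset Filter MeasureTheory Topology Complex
open Pool.Agent.N748.MG

lemma ev_scale {P : ℝ → ℝ → Prop} (h : Ev P) : Ev fun T δ => P (3 * T) δ := by
  obtain ⟨lam, δ0, h1, h2, h3, h4⟩ := h
  refine ⟨lam, δ0, h1, h2, h3, ?_⟩
  have hl : Tendsto (fun T : ℝ => 3 * T) atTop atTop := tendsto_id.const_mul_atTop (by norm_num)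
  filter_upwards [hl.eventually h4, eventually_ge_atTop 1] with T hT hT1 δ hδ hδ0 hX
  refine hT δ hδ hδ0 (hX.trans ?_)
  exact mul_le_mul_of_nonneg_left (Real.log_le_log (by linarith) (by linarith)) hδ.le

lemma nA_le {y : ℝ} {K : ℕ} (hy : 2 ≤ y) : (nA y K : ℝ) ≤ Real.exp (K * Real.log y) := by
  unfold nA
  push_cast
  have h1 : ((⌊y⌋₊ : ℕ) : ℝ) ≤ y := Nat.floor_le (by linarith)
  calc ((⌊y⌋₊ : ℕ) : ℝ) ^ K ≤ y ^ K := pow_le_pow_left₀ (Nat.cast_nonneg _) h1 K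
    _ = Real.exp (K * Real.log y) := by
        rw [mul_comm, Real.exp_mul, Real.exp_log (by linarith), Real.rpow_natCast]

lemma nA_pow {y θ T : ℝ} {K : ℕ} (hy : 2 ≤ y) (hT : 1 ≤ T) (h : K * Real.log y ≤ θ * Real.log T) :
    (nA y K : ℝ) ≤ T ^ θ := by
  refine (nA_le hy).trans ?_
  rw [Real.rpow_def_of_pos (by linarith)]
  apply Real.exp_le_exp.2
  linarith

lemma nA2_pow {y θ T : ℝ} {K : ℕ} (hy : 2 ≤ y) (hT : 1 ≤ T) (h : 2 * (K * Real.log y) ≤ θ * Real.log T) :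
    ((nA y K * nA y K : ℕ) : ℝ) ≤ T ^ θ := by
  push_cast
  have h0 : (0:ℝ) ≤ nA y K := Nat.cast_nonneg _
  calc (nA y K : ℝ) * nA y K ≤ Real.exp (K * Real.log y) * Real.exp (K * Real.log y) :=
        mul_le_mul (nA_le hy) (nA_le hy) h0 (Real.exp_pos _).le
    _ = Real.exp (2 * (K * Real.log y)) := by rw [← Real.exp_add]; congr 1; ring
    _ ≤ T ^ θ := by
        rw [Real.rpow_def_of_pos (by linarith)]
        apply Real.exp_le_exp.2
        linarith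

/-- the fourth moments of the polynomials over the zeros -/
theorem four (hDP : Pool.Agent.Q97.UM.S_DPM) (hMV : Pool.Agent.Q97.UM.S_MVL) (hSA : Pool.Agent.Q97.UM.S_SAMP)
    (hL4 : S_L4) (R : ℝ) (hR : 0 ≤ R) : ∃ C : ℝ, 0 < C ∧ ∀ᶠ T : ℝ in atTop, ∀ δ : ℝ, 0 < δ → δ ≤ 1 / 16 →
      ∀ (y : ℝ) (K : ℕ), 2 ≤ y → C * ((K + 1) * Real.log y) ≤ Real.log T → ∀ k : ℝ, 0 ≤ k → k ≤ R →
      ∑ s ∈ Zs T, mu s * (‖AS (k:ℂ) y K (pw δ s.im)‖ ^ 2) ^ 2 ≤ C * (T * Real.log T) * δ ^ (-C) := by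
  obtain ⟨C4, hC4, h4⟩ := hL4 R hR
  obtain ⟨θ, hθ, hθ1, hs⟩ := hSA 1 one_pos
  refine ⟨8 + C4 + 2 / θ, by positivity, ?_⟩
  filter_upwards [hs, eventually_ge_atTop 16] with T h1 hT δ hδ hδ1 y K hy hK k hk hkR
  obtain ⟨C, hC⟩ : ∃ C : ℝ, C = 8 + C4 + 2 / θ := ⟨_, rfl⟩
  rw [← hC] at hK ⊢
  have h2θ : 0 < 2 / θ := by positivity
  have hT0 : 0 < T := by linarith
  have hlT : 0 < Real.log T := Real.log_pos (by linarith)
  have hly : 0 ≤ Real.log y := Real.log_nonneg (by linarith)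
  have hq0 : 0 ≤ ((K:ℝ) + 1) * Real.log y := by positivity
  have hKl : (K:ℝ) * Real.log y ≤ (K + 1) * Real.log y := mul_le_mul_of_nonneg_right (by linarith) hly
  have hKθ : 2 * (K * Real.log y) ≤ θ * Real.log T := by
    have h3 : 2 / θ * ((K + 1) * Real.log y) ≤ Real.log T := by
      refine le_trans (mul_le_mul_of_nonneg_right ?_ hq0) hK
      rw [hC]; linarith
    have h5 : θ * (2 / θ * ((K + 1) * Real.log y)) ≤ θ * Real.log T := mul_le_mul_of_nonneg_left h3 hθ.le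
    have h6 : θ * (2 / θ * ((K + 1) * Real.log y)) = 2 * ((K + 1) * Real.log y) := by field_simp
    linarith
  have hkn : ‖(k:ℂ)‖ ≤ R := by rw [Complex.norm_real, Real.norm_of_nonneg hk]; exact hkR
  have hlog2 : C4 * ((K + 1) * Real.log y) ≤ Real.log (2 * T) := by
    have h3 : C4 * ((K + 1) * Real.log y) ≤ C * ((K + 1) * Real.log y) :=
      mul_le_mul_of_nonneg_right (by rw [hC]; linarith) hq0
    have h5 : Real.log T ≤ Real.log (2 * T) := Real.log_le_log hT0 (by linarith)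
    linarith
  have hL := h4 y K δ (2 * T) hy hδ hδ1 (by linarith) hlog2 k hkn
  set N := nA y K with hN
  set b := bA (k:ℂ) δ y K with hb
  set g := Pool.Agent.Q97.UM.cv b b with hg
  have hdp : ∀ t, (‖AS (k:ℂ) y K (pw δ t)‖ ^ 2) ^ 2 = ‖Pool.Agent.Q97.UM.dp (N * N) g t‖ ^ 2 := by
    intro t
    rw [hg, ← hDP.1 N N b b t (bA_len _ _ _ _) (bA_len _ _ _ _), hb, hN, dp_bA, norm_mul]
    ring
  have hN2 : ((N * N : ℕ) : ℝ) ≤ T ^ θ := nA2_pow hy (by linarith) hKθ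
  obtain ⟨-, -, a3⟩ := h1 (N * N) hN2 g
  have hN3 : ((N * N : ℕ) : ℝ) ≤ T ^ (1 / 4 : ℝ) :=
    hN2.trans (Real.rpow_le_rpow_of_exponent_le (by linarith) (by linarith))
  obtain ⟨b1, -⟩ := hMV T (by linarith) (N * N) hN3 g
  have hcont : Continuous fun t : ℝ => ‖AS (k:ℂ) y K (pw δ t)‖ ^ 4 := by
    have h3 : Continuous (Pool.Agent.Q97.UM.dp N b) := (hDP.2.2 N b 0).2
    have h5 : (fun t : ℝ => ‖AS (k:ℂ) y K (pw δ t)‖ ^ 4) = fun t => ‖Pool.Agent.Q97.UM.dp N b t‖ ^ 4 := by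
      funext t
      rw [hb, hN, dp_bA]
    rw [h5]
    exact h3.norm.pow 4
  have b2 : ∫ t in T..(2 * T), ‖Pool.Agent.Q97.UM.dp (N * N) g t‖ ^ 2 ≤ 2 * T * δ ^ (-C4) := by
    have e1 : ∀ t, ‖Pool.Agent.Q97.UM.dp (N * N) g t‖ ^ 2 = ‖AS (k:ℂ) y K (pw δ t)‖ ^ 4 := by
      intro t
      rw [← hdp]
      ring
    simp_rw [e1]
    refine le_trans ?_ hL
    have h3 : (∫ t in (0:ℝ)..(2 * T), ‖AS (k:ℂ) y K (pw δ t)‖ ^ 4) =
        (∫ t in (0:ℝ)..T, ‖AS (k:ℂ) y K (pw δ t)‖ ^ 4) + ∫ t in T..(2 * T), ‖AS (k:ℂ) y K (pw δ t)‖ ^ 4 :=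
      (intervalIntegral.integral_add_adjacent_intervals (hcont.intervalIntegrable _ _) (hcont.intervalIntegrable _ _)).symm
    rw [h3]
    have h5 : 0 ≤ ∫ t in (0:ℝ)..T, ‖AS (k:ℂ) y K (pw δ t)‖ ^ 4 :=
      intervalIntegral.integral_nonneg hT0.le fun t _ => by positivity
    linarith
  have hX0 : 0 ≤ T * Pool.Agent.Q97.UM.N2 (N * N) g := by
    unfold Pool.Agent.Q97.UM.N2; positivity
  have b3 : T * Pool.Agent.Q97.UM.N2 (N * N) g ≤ 2 * (2 * T * δ ^ (-C4)) := by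
    have e1 : T / 2 * Pool.Agent.Q97.UM.N2 (N * N) g = (T * Pool.Agent.Q97.UM.N2 (N * N) g) / 2 := by ring
    rw [e1] at b1
    linarith
  have e2 : ∑ s ∈ Zs T, mu s * (‖AS (k:ℂ) y K (pw δ s.im)‖ ^ 2) ^ 2 =
      ∑ s ∈ H370.Zf riemannZeta T (2 * T), (Pool.Agent.Q97.UM.mz s : ℝ) * ‖Pool.Agent.Q97.UM.dp (N * N) g s.im‖ ^ 2 := by
    unfold Zs
    refine sum_congr rfl fun s _ => ?_
    rw [hdp]
    rfl
  rw [e2]
  have a4 := (abs_le.1 a3).2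
  set W := T * Pool.Agent.Q97.UM.N2 (N * N) g with hW
  have hpi : Real.log T / (2 * Real.pi) ≤ Real.log T := by
    apply div_le_self hlT.le
    have := Real.pi_gt_three
    linarith
  have a5 : Real.log T / (2 * Real.pi) * W ≤ Real.log T * W := mul_le_mul_of_nonneg_right hpi hX0
  have hp0 : 0 < δ ^ (-C4) := Real.rpow_pos_of_pos hδ _
  have a6 : Real.log T * W ≤ Real.log T * (2 * (2 * T * δ ^ (-C4))) := mul_le_mul_of_nonneg_left b3 hlT.le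
  have a7 : δ ^ (-C4) ≤ δ ^ (-C) := Real.rpow_le_rpow_of_exponent_ge hδ (by linarith) (by rw [hC]; linarith)
  have a8 : 8 * (T * Real.log T) * δ ^ (-C4) ≤ C * (T * Real.log T) * δ ^ (-C) := by
    have : 8 ≤ C := by rw [hC]; linarith
    gcongr
  linarith

end Run7.h751.ZM
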