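import Pool.Agent.Run7.h751.ZM.Z3

set_option autoImplicit false

/-! # The good zeros -/

namespace Run7.h751.ZM

open Finset Filter MeasureTheory Topology Complex
open Pool.Agent.N748.MG

lemma AS_conj (k : ℝ) (y : ℝ) (K : ℕ) (w : ℂ) :
    AS (k:ℂ) y K w * (starRingEnd ℂ) (AS (k:ℂ) y K w) = ((‖AS (k:ℂ) y K w‖ ^ 2 : ℝ) : ℂ) := by
  rw [Complex.mul_conj, Complex.normSq_eq_norm_sq]

open Classical in
theorem zred (hDP : Pool.Agent.Q97.UM.S_DPM) (hMV : Pool.Agent.Q97.UM.S_MVL) (hSA : Pool.Agent.Q97.UM.S_SAMP)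
    (hL4 : S_L4) (hSN : Run7.h310.SP.S_SNIC) (hCM : S_CMP) (R D : ℝ) (hR : 0 < R) (hD : 0 < D) (C : ℝ) (hC : 0 < C) :
    Ev fun T δ => ∃ (y : ℝ) (K : ℕ) (G : Set ℝ), 2 ≤ y ∧ C * Real.log (1 / δ) ≤ δ * Real.log y ∧
      C * Real.log (1 / δ) ≤ K ∧ C * ((K + 1) * Real.log y) ≤ Real.log T ∧
      ∑ s ∈ (Zs T).filter (fun s => s.im ∉ G), mu s ≤ δ ^ D * (T * Real.log T) ∧
      (∀ t ∈ G, riemannZeta (pw δ t) ≠ 0) ∧
      ∀ k : ℝ, 0 ≤ k → k ≤ R → (∀ t ∈ G, |mz δ t ^ (2 * k) - ‖AS (k:ℂ) y K (pw δ t)‖ ^ 2| ≤ δ ^ D) ∧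
        ∑ s ∈ (Zs T).filter (fun s => s.im ∉ G), mu s * ‖AS (k:ℂ) y K (pw δ s.im)‖ ^ 2 ≤ δ ^ D * (T * Real.log T) := by
  obtain ⟨Cf, hCf, hfour⟩ := four hDP hMV hSA hL4 R hR.le
  obtain ⟨Cc, hCc, hcmp⟩ := hCM R hR.le
  obtain ⟨Cz, hCz, hcell⟩ := cell
  obtain ⟨ca, hca, hN⟩ := hSN 1 (2 * D + Cf + 3) one_pos (by linarith)
  set E0 : ℝ := Cc * (ca + 3) with hE0
  have hE00 : 0 < E0 := by positivity
  have hl54 : 0 < Real.log (5 / 4) := Real.log_pos (by norm_num)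
  set e0 : ℝ := E0 + D + 1 with he0
  set Cn : ℝ := 2 * max (max C e0) (max ((e0 + E0) / Real.log (5 / 4)) Cf) with hCn
  have hm0 : 0 < max (max C e0) (max ((e0 + E0) / Real.log (5 / 4)) Cf) :=
    lt_of_lt_of_le hC ((le_max_left _ _).trans (le_max_left _ _))
  have hCn1 : 2 * C ≤ Cn := by
    rw [hCn]; have := (le_max_left C e0).trans (le_max_left _ (max ((e0 + E0) / Real.log (5 / 4)) Cf)); linarith
  have hCn1' : C ≤ Cn := by linarith
  have hCn2 : e0 ≤ Cn := by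
    rw [hCn]; have := (le_max_right C e0).trans (le_max_left _ (max ((e0 + E0) / Real.log (5 / 4)) Cf)); linarith
  have hCn3 : (e0 + E0) / Real.log (5 / 4) ≤ Cn := by
    rw [hCn]
    have := (le_max_left ((e0 + E0) / Real.log (5 / 4)) Cf).trans (le_max_right (max C e0) _)
    linarith
  have hCn4 : 2 * Cf ≤ Cn := by
    rw [hCn]
    have := (le_max_right ((e0 + E0) / Real.log (5 / 4)) Cf).trans (le_max_right (max C e0) _)
    linarith
  have hCn0 : 0 < Cn := by rw [hCn]; linarith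
  have hev := ev_scale (hN Cn hCn0)
  refine (hev.and (((Ev.of_ev hfour).and (Ev.of_ev (eventually_ge_atTop (4:ℝ)))).and
    ((Ev.small (C := 6 * Cz) (c := 1) (e := 1) one_pos one_pos).and
    (Ev.small (C := Cf) (c := 2) (e := 1) (by norm_num) one_pos)))).mono ?_
  rintro T δ hT1 hδ hδ16 ⟨⟨y, K, hy, c1, c2, c3, c4, hSN⟩, ⟨h4, hT4⟩, hs1, hs2⟩
  have hL := log_inv_ge hδ hδ16
  set L := Real.log (1 / δ) with hLdef
  have hL0 : 0 < L := by linarith
  have hT0 : 0 < T := by linarith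
  have hlT : 0 < Real.log T := Real.log_pos (by linarith)
  have hX0 : 0 < T * Real.log T := by positivity
  have hlog : 0 ≤ ((K:ℝ) + 1) * Real.log y := by
    have := Real.log_nonneg (show 1 ≤ y by linarith)
    positivity
  have hl3 : Real.log (3 * T) ≤ 2 * Real.log T := by
    rw [Real.log_mul (by norm_num) hT0.ne']
    have : Real.log 3 ≤ Real.log T := Real.log_le_log (by norm_num) (by linarith)
    linarith
  have c3' : ∀ c : ℝ, 2 * c ≤ Cn → c * ((K + 1) * Real.log y) ≤ Real.log T := by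
    intro c hc
    have := mul_le_mul_of_nonneg_right hc hlog
    nlinarith
  have hexpL : ∀ c : ℝ, Real.exp (c * L) = δ ^ (-c) := by
    intro c
    rw [hLdef, one_div, Real.log_inv, Real.rpow_def_of_pos hδ]
    congr 1
    ring
  have hδD : 0 < δ ^ D := Real.rpow_pos_of_pos hδ _
  have hexp : Real.exp (Cc * (ca * L + 2 * L + 1)) ≤ δ ^ (-E0) := by
    rw [← hexpL]
    apply Real.exp_le_exp.2
    rw [hE0]
    have h1 : Cc * 1 ≤ Cc * L := mul_le_mul_of_nonneg_left hL hCc.le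
    have h2 : Cc * (ca + 3) * L - Cc * (ca * L + 2 * L + 1) = Cc * L - Cc * 1 := by ring
    linarith
  have herr : δ ^ e0 * Real.exp (Cc * (ca * L + 2 * L + 1)) ≤ δ ^ (D + 1) := by
    calc δ ^ e0 * Real.exp (Cc * (ca * L + 2 * L + 1)) ≤ δ ^ e0 * δ ^ (-E0) :=
          mul_le_mul_of_nonneg_left hexp (Real.rpow_nonneg hδ.le _)
      _ = δ ^ (D + 1) := by
          rw [← Real.rpow_add hδ]
          congr 1
          rw [he0]
          ring
  have hD1 : δ ^ (D + 1) ≤ 1 := Real.rpow_le_one hδ.le (by linarith) (by linarith)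
  have hDD : δ ^ (D + 1) ≤ δ ^ D := Real.rpow_le_rpow_of_exponent_ge hδ (by linarith) (by linarith)
  have hK54 : (4 / 5 : ℝ) ^ K * Real.exp (Cc * (ca * L + 2 * L + 1)) ≤ δ ^ e0 := by
    have g2 : (4 / 5 : ℝ) ^ K ≤ δ ^ (e0 + E0) := by
      have g3 : (4 / 5 : ℝ) ^ K = Real.exp (-(K * Real.log (5 / 4))) := by
        rw [← Real.rpow_natCast, Real.rpow_def_of_pos (by norm_num)]
        congr 1
        rw [show (4 / 5 : ℝ) = (5 / 4)⁻¹ by norm_num, Real.log_inv]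
        ring
      have g4 : δ ^ (e0 + E0) = Real.exp (-((e0 + E0) * L)) := by
        have := hexpL (-(e0 + E0))
        rw [neg_neg] at this
        rw [← this]
        congr 1
        ring
      rw [g3, g4]
      apply Real.exp_le_exp.2
      have g5 : (e0 + E0) * L ≤ K * Real.log (5 / 4) := by
        have g6 : (e0 + E0) / Real.log (5 / 4) * L ≤ K := (mul_le_mul_of_nonneg_right hCn3 hL0.le).trans c2
        have g7 := mul_le_mul_of_nonneg_right g6 hl54.le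
        have g8 : (e0 + E0) / Real.log (5 / 4) * L * Real.log (5 / 4) = (e0 + E0) * L := by
          field_simp
        linarith
      linarith
    calc (4 / 5 : ℝ) ^ K * Real.exp (Cc * (ca * L + 2 * L + 1)) ≤ δ ^ (e0 + E0) * δ ^ (-E0) :=
          mul_le_mul g2 hexp (Real.exp_pos _).le (Real.rpow_nonneg hδ.le _)
      _ = δ ^ e0 := by
          rw [← Real.rpow_add hδ]
          congr 1
          ring
  have hCne : δ ^ Cn ≤ δ ^ e0 := Real.rpow_le_rpow_of_exponent_ge hδ (by linarith) hCn2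
  -- the good set
  obtain ⟨G, hG⟩ : ∃ G : Set ℝ, G = {t : ℝ | ‖∑ p ∈ PA y, (p:ℂ) ^ (-(pw δ t))‖ ≤ ca * L ∧
      ‖riemannZeta (pw δ t) * AS (-1) y K (pw δ t) - 1‖ ≤ δ ^ Cn} := ⟨_, rfl⟩
  have hbadS : ∀ S : Finset ℝ, Run7.h310.SP.Sep 1 (3 * T) S →
      ∑ x ∈ S, (if x ∈ G then (0:ℝ) else 1) ≤ δ ^ (2 * D + Cf + 3) * (3 * T) := by
    intro S hS
    obtain ⟨G', hG'S, hcard, hG'⟩ := hSN S hS
    refine le_trans ?_ hcard
    have e1 : ∑ x ∈ S, (if x ∈ G then (0:ℝ) else 1) = ((S.filter (fun x => x ∉ G)).card : ℝ) := by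
      rw [card_filter]
      push_cast
      refine sum_congr rfl fun x _ => ?_
      by_cases hx : x ∈ G <;> simp [hx]
    rw [e1]
    have e2 : S.filter (fun x => x ∉ G) ⊆ S \ G' := by
      intro x hx
      rw [Finset.mem_filter] at hx
      refine Finset.mem_sdiff.2 ⟨hx.1, fun h => hx.2 ?_⟩
      rw [hG]
      exact hG' x h
    exact_mod_cast card_le_card e2
  have hbad : ∑ s ∈ (Zs T).filter (fun s => s.im ∉ G), mu s ≤ δ ^ (2 * D + Cf + 2) * (T * Real.log T) := by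
    obtain ⟨S1, S2, k1, k2, k3⟩ := hcell T hT4 (fun x => if x ∈ G then (0:ℝ) else 1) (fun x => by
      show 0 ≤ (if x ∈ G then (0:ℝ) else 1)
      split_ifs <;> norm_num)
    have e1 : ∑ s ∈ (Zs T).filter (fun s => s.im ∉ G), mu s = ∑ s ∈ Zs T, mu s * (if s.im ∈ G then (0:ℝ) else 1) := by
      rw [sum_filter]
      refine sum_congr rfl fun s _ => ?_
      by_cases hs : s.im ∈ G <;> simp [hs]
    rw [e1]
    refine k3.trans ?_
    have j1 := hbadS S1 k1
    have j2 := hbadS S2 k2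
    have j3 : Cz * Real.log T * (∑ x ∈ S1, (if x ∈ G then (0:ℝ) else 1) + ∑ x ∈ S2, (if x ∈ G then (0:ℝ) else 1)) ≤
        Cz * Real.log T * (δ ^ (2 * D + Cf + 3) * (3 * T) + δ ^ (2 * D + Cf + 3) * (3 * T)) := by gcongr
    refine j3.trans ?_
    have j4 : δ ^ (2 * D + Cf + 3) = δ ^ (2 * D + Cf + 2) * δ := by
      rw [← Real.rpow_add_one hδ.ne']
      congr 1
      ring
    rw [Real.rpow_one] at hs1
    have j5 : 0 < δ ^ (2 * D + Cf + 2) := Real.rpow_pos_of_pos hδ _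
    calc Cz * Real.log T * (δ ^ (2 * D + Cf + 3) * (3 * T) + δ ^ (2 * D + Cf + 3) * (3 * T)) =
          (6 * Cz * δ) * (δ ^ (2 * D + Cf + 2) * (T * Real.log T)) := by rw [j4]; ring
      _ ≤ 1 * (δ ^ (2 * D + Cf + 2) * (T * Real.log T)) := mul_le_mul_of_nonneg_right hs1 (by positivity)
      _ = _ := one_mul _
  refine ⟨y, K, G, hy, (mul_le_mul_of_nonneg_right hCn1' hL0.le).trans c1,
    (mul_le_mul_of_nonneg_right hCn1' hL0.le).trans c2, c3' C hCn1, ?_, ?_, ?_⟩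
  · refine hbad.trans (mul_le_mul_of_nonneg_right ?_ hX0.le)
    exact Real.rpow_le_rpow_of_exponent_ge hδ (by linarith) (by linarith)
  · intro t ht h0
    rw [hG] at ht
    have h1 := ht.2
    rw [h0, zero_mul, zero_sub, norm_neg, norm_one] at h1
    have h2 : δ ^ Cn < 1 := Real.rpow_lt_one hδ.le (by linarith) hCn0
    linarith
  · intro k hk hkR
    have hkn : ‖(k:ℂ)‖ ≤ R := by rw [Complex.norm_real, Real.norm_of_nonneg hk]; exact hkR
    refine ⟨fun t ht => ?_, ?_⟩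
    · rw [hG] at ht
      obtain ⟨h1, h2⟩ := ht
      have hre : 1 / 2 ≤ (pw δ t).re := by
        unfold pw
        simp
        linarith
      have h3 := hcmp y K (pw δ t) (ca * L) (2 * L) (δ ^ e0) hy hre h1 c4
        (Real.rpow_pos_of_pos hδ _) (h2.trans hCne) hK54 (herr.trans hD1) (k:ℂ) hkn
      have e1 : ((‖riemannZeta (pw δ t)‖ : ℝ) : ℂ) ^ (2 * (k:ℂ)) =
          ((‖riemannZeta (pw δ t)‖ ^ (2 * k) : ℝ) : ℂ) := by
        rw [Complex.ofReal_cpow (norm_nonneg _)]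
        push_cast
        rfl
      rw [Complex.conj_ofReal, AS_conj, e1, ← Complex.ofReal_sub, Complex.norm_real, Real.norm_eq_abs] at h3
      exact h3.trans (herr.trans hDD)
    · set A : ℂ → ℝ := fun s => ‖AS (k:ℂ) y K (pw δ s.im)‖ ^ 2 with hA
      have g1 := Finset.sum_sq_le_sum_mul_sum_of_sq_eq_mul ((Zs T).filter (fun s => s.im ∉ G))
        (r := fun s => mu s * A s) (f := fun s => mu s) (g := fun s => mu s * (A s) ^ 2)
        (fun s _ => mu_nn s) (fun s _ => mul_nonneg (mu_nn s) (sq_nonneg _)) (fun s _ => by ring)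
      have g2 : ∑ s ∈ (Zs T).filter (fun s => s.im ∉ G), mu s * (A s) ^ 2 ≤ Cf * (T * Real.log T) * δ ^ (-Cf) :=
        (sum_le_sum_of_subset_of_nonneg (filter_subset _ _) fun s _ _ => mul_nonneg (mu_nn s) (sq_nonneg _)).trans
          (h4 δ hδ hδ16 y K hy (c3' Cf hCn4) k hk hkR)
      have g3 : (∑ s ∈ (Zs T).filter (fun s => s.im ∉ G), mu s * A s) ^ 2 ≤
          (δ ^ (2 * D + Cf + 2) * (T * Real.log T)) * (Cf * (T * Real.log T) * δ ^ (-Cf)) :=
        g1.trans (mul_le_mul hbad g2 (sum_nonneg fun s _ => mul_nonneg (mu_nn s) (sq_nonneg _)) (by positivity))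
      have g4 : (δ ^ (2 * D + Cf + 2) * (T * Real.log T)) * (Cf * (T * Real.log T) * δ ^ (-Cf)) =
          (Cf * δ ^ (2:ℝ)) * (δ ^ D * (T * Real.log T)) ^ 2 := by
        have g5 : δ ^ (2 * D + Cf + 2) * δ ^ (-Cf) = δ ^ (2:ℝ) * (δ ^ D) ^ 2 := by
          rw [← Real.rpow_natCast (δ ^ D), ← Real.rpow_mul hδ.le, ← Real.rpow_add hδ, ← Real.rpow_add hδ]
          congr 1
          push_cast
          ring
        calc (δ ^ (2 * D + Cf + 2) * (T * Real.log T)) * (Cf * (T * Real.log T) * δ ^ (-Cf)) =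
              (δ ^ (2 * D + Cf + 2) * δ ^ (-Cf)) * (Cf * (T * Real.log T) ^ 2) := by ring
          _ = _ := by rw [g5]; ring
      rw [g4] at g3
      have g6 : (∑ s ∈ (Zs T).filter (fun s => s.im ∉ G), mu s * A s) ^ 2 ≤ (δ ^ D * (T * Real.log T)) ^ 2 :=
        g3.trans (mul_le_of_le_one_left (sq_nonneg _) hs2)
      exact abs_le_of_sq_le_sq' g6 (by positivity) |>.2

end Run7.h751.ZM
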