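import Pool.Agent.Run7.h751.ZM.Z4

set_option autoImplicit false

/-! # Moments over the good zeros -/

namespace Run7.h751.ZM

open Finset Filter MeasureTheory Topology Complex
open Pool.Agent.N748.MG

lemma mu_one {T : ℝ} (hT : 1 ≤ T) {s : ℂ} (hs : s ∈ Zs T) : 1 ≤ mu s := by
  have h := (mem_Zs hT).1 hs
  have h1 := H370.Loc.mult_pos' H370.good_zeta (s := s) (by linarith [h.2.2.1]) h.2.2.2.2
  unfold mu
  exact_mod_cast h1

lemma count (hSA : Pool.Agent.Q97.UM.S_SAMP) (ε : ℝ) (hε : 0 < ε) :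
    ∀ᶠ T : ℝ in atTop, |∑ s ∈ Zs T, mu s - T * Real.log T / (2 * Real.pi)| ≤ ε * (T * Real.log T) := by
  obtain ⟨θ, hθ, -, h⟩ := hSA ε hε
  filter_upwards [h, eventually_ge_atTop 1] with T h1 hT
  obtain ⟨-, -, h2⟩ := h1 1 (by
    rw [Nat.cast_one]
    exact Real.one_le_rpow hT hθ.le) (fun _ => 1)
  have e1 : ∀ t, Pool.Agent.Q97.UM.dp 1 (fun _ => 1) t = 1 := by
    intro t
    unfold Pool.Agent.Q97.UM.dp
    simp
  have e2 : Pool.Agent.Q97.UM.N2 1 (fun _ => 1) = 1 := by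
    unfold Pool.Agent.Q97.UM.N2
    simp
  rw [e2] at h2
  simp only [e1, norm_one, one_pow, mul_one] at h2
  have e3 : ∑ s ∈ Zs T, mu s = ∑ s ∈ H370.Zf riemannZeta T (2 * T), (Pool.Agent.Q97.UM.mz s : ℝ) := rfl
  rw [e3]
  have e4 : Real.log T / (2 * Real.pi) * T = T * Real.log T / (2 * Real.pi) := by ring
  rw [e4] at h2
  refine h2.trans (le_of_eq ?_)
  ring

lemma aC_bdd (hc : S_CON) (R : ℝ) : ∃ A : ℝ, 0 < A ∧ ∀ k : ℝ, 0 ≤ k → k ≤ R → 0 < (aC k).re ∧ (aC k).re ≤ A := by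
  have hcont : Continuous fun k : ℝ => (aC (k:ℂ)).re := Complex.continuous_re.comp (hc.1.comp Complex.continuous_ofReal)
  obtain ⟨A, hA⟩ := (isCompact_Icc (a := (0:ℝ)) (b := R)).bddAbove_image hcont.continuousOn
  refine ⟨max A 1, by positivity, fun k h1 h2 => ⟨?_, ?_⟩⟩
  · obtain ⟨r, hr, hr2⟩ := hc.2 k
    rw [hr2, Complex.ofReal_re]
    exact hr
  · exact (hA ⟨k, ⟨h1, h2⟩, rfl⟩).trans (le_max_left _ _)

lemma mzk_nn (δ t e : ℝ) : 0 ≤ mz δ t ^ e := Real.rpow_nonneg (norm_nonneg _) _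

open Classical in
/-- the comparison for a set of zeros -/
lemma part {T δ q X w : ℝ} {κ : ℝ} {G : Set ℝ} (A : ℝ → ℝ) (hT : 1 ≤ T) (hw : 0 ≤ w) (hq0 : 0 ≤ q) (hq1 : q ≤ 1)
    (hA : ∀ t, 0 ≤ A t) (hN : ∑ s ∈ Zs T, mu s ≤ X)
    (hG : ∀ t ∈ G, |mz δ t ^ κ - A t| ≤ w)
    (hB : ∑ s ∈ (Zs T).filter (fun s => s.im ∉ G), mu s * A s.im ≤ w * X) (P : Finset ℂ) (hP : P ⊆ Zs T) :
    q * ∑ s ∈ P, A s.im - 2 * w * X ≤ q * ∑ s ∈ P.filter (fun s => s.im ∈ G), mz δ s.im ^ κ := by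
  have h1 : ∑ s ∈ P, A s.im = ∑ s ∈ P.filter (fun s => s.im ∈ G), A s.im + ∑ s ∈ P.filter (fun s => ¬ s.im ∈ G), A s.im :=
    (sum_filter_add_sum_filter_not _ _ _).symm
  have h2 : ∑ s ∈ P.filter (fun s => ¬ s.im ∈ G), A s.im ≤ w * X := by
    refine le_trans ?_ hB
    refine (sum_le_sum_of_subset_of_nonneg (filter_subset_filter _ hP) fun s _ _ => hA _).trans ?_
    refine sum_le_sum fun s hs => ?_
    have := mu_one hT (mem_filter.1 hs).1
    nlinarith [hA s.im]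
  have h3 : ∑ s ∈ P.filter (fun s => s.im ∈ G), A s.im ≤ ∑ s ∈ P.filter (fun s => s.im ∈ G), mz δ s.im ^ κ + w * X := by
    have h4 : ∑ s ∈ P.filter (fun s => s.im ∈ G), A s.im ≤ ∑ s ∈ P.filter (fun s => s.im ∈ G), (mz δ s.im ^ κ + w) := by
      refine sum_le_sum fun s hs => ?_
      have := (abs_le.1 (hG s.im (mem_filter.1 hs).2)).1
      linarith
    rw [sum_add_distrib, sum_const, nsmul_eq_mul] at h4
    have h5 : ((P.filter (fun s => s.im ∈ G)).card : ℝ) ≤ X := by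
      refine le_trans ?_ hN
      have : ((P.filter (fun s => s.im ∈ G)).card : ℝ) = ∑ s ∈ P.filter (fun s => s.im ∈ G), (1:ℝ) := by
        rw [sum_const, nsmul_eq_mul, mul_one]
      rw [this]
      refine (sum_le_sum_of_subset_of_nonneg ((filter_subset _ _).trans hP) fun s _ _ => zero_le_one).trans ?_
      exact sum_le_sum fun s hs => mu_one hT hs
    nlinarith
  have h6 : ∑ s ∈ P, A s.im - 2 * w * X ≤ ∑ s ∈ P.filter (fun s => s.im ∈ G), mz δ s.im ^ κ := by linarith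
  have hX : 0 ≤ X := (sum_nonneg fun s _ => mu_nn s).trans hN
  have h7 : 0 ≤ 2 * w * X := by positivity
  have h8 := mul_le_mul_of_nonneg_left h6 hq0
  nlinarith

open Classical in
/-- the comparison for all zeros with multiplicity -/
lemma partm {T δ q X w : ℝ} {κ : ℝ} {G : Set ℝ} (A : ℝ → ℝ) (hw : 0 ≤ w) (hq0 : 0 ≤ q) (hq1 : q ≤ 1)
    (hA : ∀ t, 0 ≤ A t) (hN : ∑ s ∈ Zs T, mu s ≤ X)
    (hG : ∀ t ∈ G, |mz δ t ^ κ - A t| ≤ w)
    (hB : ∑ s ∈ (Zs T).filter (fun s => s.im ∉ G), mu s * A s.im ≤ w * X) :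
    |q * ∑ s ∈ (Zs T).filter (fun s => s.im ∈ G), mu s * mz δ s.im ^ κ - q * ∑ s ∈ Zs T, mu s * A s.im| ≤ 2 * w * X := by
  have h1 : ∑ s ∈ Zs T, mu s * A s.im = ∑ s ∈ (Zs T).filter (fun s => s.im ∈ G), mu s * A s.im +
      ∑ s ∈ (Zs T).filter (fun s => ¬ s.im ∈ G), mu s * A s.im := (sum_filter_add_sum_filter_not _ _ _).symm
  have h2 : 0 ≤ ∑ s ∈ (Zs T).filter (fun s => ¬ s.im ∈ G), mu s * A s.im :=
    sum_nonneg fun s _ => mul_nonneg (mu_nn s) (hA _)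
  have h3 : |∑ s ∈ (Zs T).filter (fun s => s.im ∈ G), mu s * mz δ s.im ^ κ -
      ∑ s ∈ (Zs T).filter (fun s => s.im ∈ G), mu s * A s.im| ≤ w * X := by
    rw [← sum_sub_distrib]
    refine (abs_sum_le_sum_abs _ _).trans ?_
    have h4 : ∑ s ∈ (Zs T).filter (fun s => s.im ∈ G), |mu s * mz δ s.im ^ κ - mu s * A s.im| ≤
        ∑ s ∈ (Zs T).filter (fun s => s.im ∈ G), mu s * w := by
      refine sum_le_sum fun s hs => ?_
      rw [← mul_sub, abs_mul, abs_of_nonneg (mu_nn s)]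
      exact mul_le_mul_of_nonneg_left (hG s.im (mem_filter.1 hs).2) (mu_nn s)
    refine h4.trans ?_
    rw [← sum_mul, mul_comm]
    refine mul_le_mul_of_nonneg_left (le_trans ?_ hN) hw
    exact sum_le_sum_of_subset_of_nonneg (filter_subset _ _) fun s _ _ => mu_nn s
  rw [← mul_sub, abs_mul, abs_of_nonneg hq0]
  have hX : 0 ≤ X := (sum_nonneg fun s _ => mu_nn s).trans hN
  have h5 : |∑ s ∈ (Zs T).filter (fun s => s.im ∈ G), mu s * mz δ s.im ^ κ - ∑ s ∈ Zs T, mu s * A s.im| ≤ 2 * w * X := by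
    rw [h1]
    rw [abs_le] at h3 ⊢
    constructor
    · linarith [h3.1]
    · have : 0 ≤ w * X := by positivity
      linarith [h3.2]
  calc q * |∑ s ∈ (Zs T).filter (fun s => s.im ∈ G), mu s * mz δ s.im ^ κ - ∑ s ∈ Zs T, mu s * A s.im|
      ≤ 1 * (2 * w * X) := mul_le_mul hq1 h5 (abs_nonneg _) zero_le_one
    _ = _ := one_mul _

end Run7.h751.ZM
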