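import Pool.Agent.Run7.h751.ZM.Z7

set_option autoImplicit false

/-! # Moments of orders below four without truncation -/

namespace Run7.h751.ZM

open Finset Filter MeasureTheory Topology Complex
open Pool.Agent.N748.MG

/-- a bound for the fourth moment of zeta near the line -/
def S_F4 : Prop := ∃ C : ℝ, 0 < C ∧ Ev fun X δ => ∀ δ' : ℝ, δ / 2 ≤ δ' → δ' ≤ 3 * δ / 2 →
  ∫ t in (0:ℝ)..X, ‖riemannZeta (pw δ' t) ^ 2‖ ^ 2 ≤ C * X * δ ^ (-C)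

theorem fourz (hS : Run7.h310.SP.S_SUM) (hF : S_F4) : ∃ C : ℝ, 0 < C ∧ Ev fun T δ =>
    ∑ s ∈ Zs T, mu s * mz δ s.im ^ (4:ℝ) ≤ C * (T * Real.log T) * δ ^ (-C) := by
  obtain ⟨C1, hC1, h1⟩ := hS 1 one_pos
  obtain ⟨C2, hC2, h2⟩ := hF
  obtain ⟨Cz, hCz, hcell⟩ := cell
  refine ⟨6 * (C1 * C2 * Cz) + C2 + 1, by positivity, ((ev_scale h2).and (Ev.of_ev (eventually_ge_atTop (4:ℝ)))).mono ?_⟩
  rintro T δ hT1 hδ hδ16 ⟨h3, hT4⟩
  obtain ⟨C, hC⟩ : ∃ C : ℝ, C = 6 * (C1 * C2 * Cz) + C2 + 1 := ⟨_, rfl⟩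
  rw [← hC]
  have hT0 : 0 < T := by linarith
  have hlT : 0 < Real.log T := Real.log_pos (by linarith)
  obtain ⟨S1, S2, k1, k2, k3⟩ := hcell T hT4 (fun t => mz δ t ^ (4:ℝ)) (fun t => mzk_nn _ _ _)
  have hdiff : DifferentiableOn ℂ (fun s => riemannZeta s ^ 2) {s : ℂ | 1 / 2 < s.re ∧ s.re < 1} := by
    intro s hs
    have hs1 : s ≠ 1 := by
      intro h
      have := hs.2
      rw [h, Complex.one_re] at this
      linarith
    exact ((differentiableAt_riemannZeta hs1).pow 2).differentiableWithinAt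
  have hB : 0 ≤ C2 * (3 * T) * δ ^ (-C2) := by positivity
  have hsum : ∀ S : Finset ℝ, Run7.h310.SP.Sep 1 (3 * T) S →
      ∑ x ∈ S, mz δ x ^ (4:ℝ) ≤ C1 * (C2 * (3 * T) * δ ^ (-C2)) / δ := by
    intro S hSp
    have h4 := h1 (fun s => riemannZeta s ^ 2) hdiff δ 0 (3 * T) (C2 * (3 * T) * δ ^ (-C2)) hδ hδ16 (by linarith) hB
      h3 S (fun s hs => ⟨by linarith [hSp.lo s hs], hSp.hi s hs⟩) hSp.sep
    refine le_trans (le_of_eq ?_) h4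
    refine sum_congr rfl fun x _ => ?_
    unfold mz
    rw [norm_pow, ← pow_mul]
    norm_num
  have j1 := hsum S1 k1
  have j2 := hsum S2 k2
  refine k3.trans ?_
  have j3 : Cz * Real.log T * (∑ x ∈ S1, mz δ x ^ (4:ℝ) + ∑ x ∈ S2, mz δ x ^ (4:ℝ)) ≤
      Cz * Real.log T * (C1 * (C2 * (3 * T) * δ ^ (-C2)) / δ + C1 * (C2 * (3 * T) * δ ^ (-C2)) / δ) := by gcongr
  refine j3.trans ?_
  have j4 : δ ^ (-(C2 + 1)) = δ ^ (-C2) / δ := by
    rw [neg_add, Real.rpow_add hδ, Real.rpow_neg_one]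
    rfl
  have j5 : Cz * Real.log T * (C1 * (C2 * (3 * T) * δ ^ (-C2)) / δ + C1 * (C2 * (3 * T) * δ ^ (-C2)) / δ) =
      6 * (C1 * C2 * Cz) * (T * Real.log T) * δ ^ (-(C2 + 1)) := by rw [j4]; ring
  rw [j5]
  have j6 : 0 ≤ C1 * C2 * Cz := by positivity
  have j7 : δ ^ (-(C2 + 1)) ≤ δ ^ (-C) := Real.rpow_le_rpow_of_exponent_ge hδ (by linarith) (by rw [hC]; linarith)
  have j8 : 6 * (C1 * C2 * Cz) ≤ C := by rw [hC]; linarith
  have j9 : 0 ≤ C := by linarith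
  calc 6 * (C1 * C2 * Cz) * (T * Real.log T) * δ ^ (-(C2 + 1)) ≤ C * (T * Real.log T) * δ ^ (-(C2 + 1)) :=
        mul_le_mul_of_nonneg_right (mul_le_mul_of_nonneg_right j8 (by positivity)) (by positivity)
    _ ≤ C * (T * Real.log T) * δ ^ (-C) := mul_le_mul_of_nonneg_left j7 (by positivity)

open Classical in
theorem full (hDP : Pool.Agent.Q97.UM.S_DPM) (hMV : Pool.Agent.Q97.UM.S_MVL) (hSA : Pool.Agent.Q97.UM.S_SAMP)
    (hSI : Pool.Agent.Q97.UM.S_SAMPI) (hL4 : S_L4) (hSN : Run7.h310.SP.S_SNIC) (hCM : S_CMP) (hD1 : S_DIA1)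
    (hD2 : S_DIA2) (hc : S_CON) (c1 : 1 < H370.cMTinv) (c2 : H370.cMTinv < 3 / 2)
    (hS : Run7.h310.SP.S_SUM) (hF : S_F4)
    (k1 k2 ε : ℝ) (hk1 : 0 < k1) (hk12 : k1 ≤ k2) (hk2 : k2 < 2) (hε : 0 < ε) :
    ∃ η : ℝ, 0 < η ∧ η ≤ 1 ∧ Ev fun T δ => ∀ k : ℝ, k1 ≤ k → k ≤ k2 →
        |(2 * δ) ^ (k ^ 2) * ∑ s ∈ Zs T, mu s * mz δ s.im ^ (2 * k) -
          (aC k).re * (T * Real.log T / (2 * Real.pi))| ≤ ε * (T * Real.log T) ∧
        (2 - H370.cMTinv) * (aC k).re * (T * Real.log T / (2 * Real.pi)) - ε * (T * Real.log T) ≤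
          (2 * δ) ^ (k ^ 2) * ∑ s ∈ Pool.Agent.Q97.UM.ZI η T, mz δ s.im ^ (2 * k) ∧
        (3 - H370.cMTinv) / 2 * (aC k).re * (T * Real.log T / (2 * Real.pi)) - ε * (T * Real.log T) ≤
          (2 * δ) ^ (k ^ 2) * ∑ s ∈ (Zs T).filter (fun s => s.re ≤ 1 / 2), mz δ s.im ^ (2 * k) := by
  obtain ⟨C5, hC5, h5⟩ := fourz hS hF
  obtain ⟨g, hg⟩ : ∃ g : ℝ, g = 4 - 2 * k2 := ⟨_, rfl⟩
  have hg0 : 0 < g := by rw [hg]; linarith
  obtain ⟨B, hB⟩ : ∃ B : ℝ, B = (C5 + 1) / g := ⟨_, rfl⟩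
  have hB0 : 0 < B := by rw [hB]; positivity
  have hBg : B * g = C5 + 1 := by rw [hB]; field_simp
  obtain ⟨η, hη, hη1, hev⟩ := main1 hDP hMV hSA hSI hL4 hSN hCM hD1 hD2 hc c1 c2 2 (ε / 2) (4 * B + 1)
    (by norm_num) (by positivity) (by positivity)
  refine ⟨η, hη, hη1, ((hev.and (h5.and (Ev.of_ev (eventually_ge_atTop (16:ℝ))))).and
    (Ev.small (C := 1 + C5) (c := 1) (e := ε / 2) one_pos (by positivity))).mono ?_⟩
  rintro T δ hT1 hδ hδ16 ⟨⟨⟨G, g4, g5, g6⟩, h6, hT16⟩, hs1⟩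
  rw [Real.rpow_one] at hs1
  have hT0 : 0 < T := by linarith
  have hlT : 0 < Real.log T := Real.log_pos (by linarith)
  obtain ⟨X, hX⟩ : ∃ X : ℝ, X = T * Real.log T := ⟨_, rfl⟩
  have hX0 : 0 < X := by rw [hX]; positivity
  intro k hk hk'
  have hk0 : 0 < k := by linarith
  obtain ⟨m1, m2, m3⟩ := g6 k hk0.le (by linarith)
  rw [← hX] at g4 m1 m2 m3 h6 ⊢
  obtain ⟨q, hq⟩ : ∃ q : ℝ, q = (2 * δ) ^ (k ^ 2) := ⟨_, rfl⟩
  rw [← hq] at m1 m2 m3 ⊢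
  have hq0 : 0 ≤ q := by rw [hq]; positivity
  have hq1 : q ≤ 1 := by rw [hq]; exact Real.rpow_le_one (by positivity) (by linarith) (by positivity)
  obtain ⟨Y, hY⟩ : ∃ Y : ℝ, Y = δ ^ (-B) := ⟨_, rfl⟩
  have hY1 : 1 ≤ Y := by
    rw [hY]
    exact Real.one_le_rpow_of_pos_of_le_one_of_nonpos hδ (by linarith) (by linarith)
  have hY0 : 0 < Y := by linarith
  have hpt : ∀ z : ℝ, 0 ≤ z → z ^ (2 * k) ≤ Y ^ (4:ℝ) + Y ^ (-g) * z ^ (4:ℝ) := by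
    intro z hz
    rcases le_or_gt z Y with h | h
    · have h1 : z ^ (2 * k) ≤ Y ^ (4:ℝ) := (Real.rpow_le_rpow hz h (by linarith)).trans
        (Real.rpow_le_rpow_of_exponent_le hY1 (by linarith))
      have h2 : 0 ≤ Y ^ (-g) * z ^ (4:ℝ) := by positivity
      linarith
    · have hz0 : 0 < z := hY0.trans h
      have hz1 : 1 ≤ z := by linarith
      have h1 : z ^ (2 * k) ≤ z ^ (-g) * z ^ (4:ℝ) := by
        rw [← Real.rpow_add hz0]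
        refine Real.rpow_le_rpow_of_exponent_le hz1 ?_
        rw [hg]; linarith
      have h2 : z ^ (-g) ≤ Y ^ (-g) := Real.rpow_le_rpow_of_nonpos hY0 h.le (by linarith)
      have h3 : z ^ (-g) * z ^ (4:ℝ) ≤ Y ^ (-g) * z ^ (4:ℝ) := mul_le_mul_of_nonneg_right h2 (by positivity)
      have h4 : 0 ≤ Y ^ (4:ℝ) := by positivity
      linarith
  have hE1 : q * ∑ s ∈ (Zs T).filter (fun s => s.im ∉ G), mu s * mz δ s.im ^ (2 * k) ≤ ε / 2 * X := by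
    have h1 : ∑ s ∈ (Zs T).filter (fun s => s.im ∉ G), mu s * mz δ s.im ^ (2 * k) ≤
        Y ^ (4:ℝ) * ∑ s ∈ (Zs T).filter (fun s => s.im ∉ G), mu s +
        Y ^ (-g) * ∑ s ∈ (Zs T).filter (fun s => s.im ∉ G), mu s * mz δ s.im ^ (4:ℝ) := by
      rw [mul_sum, mul_sum, ← sum_add_distrib]
      refine sum_le_sum fun s _ => ?_
      calc mu s * mz δ s.im ^ (2 * k) ≤ mu s * (Y ^ (4:ℝ) + Y ^ (-g) * mz δ s.im ^ (4:ℝ)) :=
            mul_le_mul_of_nonneg_left (hpt _ (norm_nonneg _)) (mu_nn s)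
        _ = _ := by ring
    have h2 : ∑ s ∈ (Zs T).filter (fun s => s.im ∉ G), mu s * mz δ s.im ^ (4:ℝ) ≤ C5 * X * δ ^ (-C5) :=
      (sum_le_sum_of_subset_of_nonneg (filter_subset _ _) fun s _ _ => mul_nonneg (mu_nn s) (mzk_nn _ _ _)).trans h6
    have h3 : Y ^ (4:ℝ) * (δ ^ (4 * B + 1) * X) = δ * X := by
      have : Y ^ (4:ℝ) * δ ^ (4 * B + 1) = δ := by
        rw [hY, ← Real.rpow_mul hδ.le, ← Real.rpow_add hδ]
        have e1 : -B * 4 + (4 * B + 1) = 1 := by ring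
        rw [e1, Real.rpow_one]
      rw [← mul_assoc, this]
    have h4 : Y ^ (-g) * (C5 * X * δ ^ (-C5)) = C5 * δ * X := by
      have : Y ^ (-g) * δ ^ (-C5) = δ := by
        rw [hY, ← Real.rpow_mul hδ.le, ← Real.rpow_add hδ]
        have e1 : -B * -g + -C5 = 1 := by rw [neg_mul_neg, hBg]; ring
        rw [e1, Real.rpow_one]
      calc Y ^ (-g) * (C5 * X * δ ^ (-C5)) = C5 * (Y ^ (-g) * δ ^ (-C5)) * X := by ring
        _ = _ := by rw [this]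
    have h5' : Y ^ (4:ℝ) * ∑ s ∈ (Zs T).filter (fun s => s.im ∉ G), mu s ≤ Y ^ (4:ℝ) * (δ ^ (4 * B + 1) * X) :=
      mul_le_mul_of_nonneg_left g4 (by positivity)
    have h7 : Y ^ (-g) * ∑ s ∈ (Zs T).filter (fun s => s.im ∉ G), mu s * mz δ s.im ^ (4:ℝ) ≤
        Y ^ (-g) * (C5 * X * δ ^ (-C5)) := mul_le_mul_of_nonneg_left h2 (by positivity)
    have h8 : ∑ s ∈ (Zs T).filter (fun s => s.im ∉ G), mu s * mz δ s.im ^ (2 * k) ≤ (1 + C5) * δ * X := by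
      have : (1 + C5) * δ * X = δ * X + C5 * δ * X := by ring
      linarith
    calc _ ≤ 1 * ((1 + C5) * δ * X) :=
          mul_le_mul hq1 h8 (sum_nonneg fun s _ => mul_nonneg (mu_nn s) (mzk_nn _ _ _)) zero_le_one
      _ = ((1 + C5) * δ) * X := by ring
      _ ≤ _ := mul_le_mul_of_nonneg_right hs1 hX0.le
  refine ⟨?_, ?_, ?_⟩
  · have h1 : ∑ s ∈ Zs T, mu s * mz δ s.im ^ (2 * k) =
        ∑ s ∈ (Zs T).filter (fun s => s.im ∈ G), mu s * mz δ s.im ^ (2 * k) +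
        ∑ s ∈ (Zs T).filter (fun s => s.im ∉ G), mu s * mz δ s.im ^ (2 * k) :=
      (sum_filter_add_sum_filter_not _ _ _).symm
    have h3 : 0 ≤ q * ∑ s ∈ (Zs T).filter (fun s => s.im ∉ G), mu s * mz δ s.im ^ (2 * k) :=
      mul_nonneg hq0 (sum_nonneg fun s _ => mul_nonneg (mu_nn s) (mzk_nn _ _ _))
    rw [h1, mul_add]
    rw [abs_le] at m1 ⊢
    constructor
    · linarith [m1.1]
    · linarith [m1.2]
  · have h1 : ∑ s ∈ (Pool.Agent.Q97.UM.ZI η T).filter (fun s => s.im ∈ G), mz δ s.im ^ (2 * k) ≤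
        ∑ s ∈ Pool.Agent.Q97.UM.ZI η T, mz δ s.im ^ (2 * k) :=
      sum_le_sum_of_subset_of_nonneg (filter_subset _ _) fun s _ _ => mzk_nn _ _ _
    have h2 := mul_le_mul_of_nonneg_left h1 hq0
    have h3 : 0 < ε * X := by positivity
    linarith
  · have h1 : ∑ s ∈ ((Zs T).filter (fun s => s.re ≤ 1 / 2)).filter (fun s => s.im ∈ G), mz δ s.im ^ (2 * k) ≤
        ∑ s ∈ (Zs T).filter (fun s => s.re ≤ 1 / 2), mz δ s.im ^ (2 * k) :=
      sum_le_sum_of_subset_of_nonneg (filter_subset _ _) fun s _ _ => mzk_nn _ _ _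
    have h2 := mul_le_mul_of_nonneg_left h1 hq0
    have h3 : 0 < ε * X := by positivity
    linarith

end Run7.h751.ZM
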